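import Pool.Agent.H569R2.Tri.Iface

/-!
# Elementary facts about representatives, partners and blocks
-/

namespace Pool.Agent.H569R2.Tri

theorem rep_spec (T : List (ℕ × ℕ × ℕ)) (c i : ℕ) (hi : i < T.length) :
    rep T c i < T.length ∧
      coord c (T.getD (rep T c i) (0, 0, 0)) = coord c (T.getD i (0, 0, 0)) := by
  have hmem : i ∈ (List.range T.length).filter (fun j =>
    decide (coord c (T.getD j (0, 0, 0)) = coord c (T.getD i (0, 0, 0)))) := by
    simp [hi]
  unfold rep
  cases h : (List.range T.length).filter (fun j =>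
    decide (coord c (T.getD j (0, 0, 0)) = coord c (T.getD i (0, 0, 0)))) with
  | nil => rw [h] at hmem; simp at hmem
  | cons a l =>
    have ha : a ∈ (List.range T.length).filter (fun j =>
      decide (coord c (T.getD j (0, 0, 0)) = coord c (T.getD i (0, 0, 0)))) := by
      rw [h]; simp
    simp only [List.mem_filter, List.mem_range, decide_eq_true_eq] at ha
    simpa using ha

theorem rep_lt (T : List (ℕ × ℕ × ℕ)) (c i : ℕ) (hi : i < T.length) : rep T c i < T.length :=
  (rep_spec T c i hi).1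

theorem rep_eq_iff (T : List (ℕ × ℕ × ℕ)) (c i j : ℕ) (hi : i < T.length) (hj : j < T.length) :
    rep T c i = rep T c j ↔
      coord c (T.getD i (0, 0, 0)) = coord c (T.getD j (0, 0, 0)) := by
  constructor
  · intro h
    rw [← (rep_spec T c i hi).2, ← (rep_spec T c j hj).2, h]
  · intro h
    unfold rep
    rw [h]

theorem tgt_lt (b k : ℕ) (hk : k < 12) : tgt b k < 12 := by
  unfold tgt
  split_ifs <;> omega

theorem tgt_big (b k : ℕ) (hb : 9 ≤ b) : tgt b k = k := by
  unfold tgt
  simp only [show b ≠ 1 by omega, show b ≠ 2 by omega, show b ≠ 3 by omega, show b ≠ 4 by omega,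
    show b ≠ 5 by omega, show b ≠ 6 by omega, show b ≠ 7 by omega, show b ≠ 8 by omega, if_false]

theorem tgt_tgt_small : ∀ b < 9, ∀ k < 12, tgt b (tgt b k) = tgt b k := by decide

theorem tgt_tgt (b k : ℕ) (hk : k < 12) : tgt b (tgt b k) = tgt b k := by
  by_cases hb : 9 ≤ b
  · rw [tgt_big b _ hb]
  · exact tgt_tgt_small b (by omega) k hk

theorem tgt_small (b k : ℕ) (hk : k < 3) : tgt b k = k := by
  unfold tgt
  split_ifs <;> omega

theorem fb_mod (T : List (ℕ × ℕ × ℕ)) (b v : ℕ) : fb T b v % 12 = tgt b (v % 12) := by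
  have h := tgt_lt b (v % 12) (Nat.mod_lt _ (by norm_num))
  unfold fb
  split_ifs with h1 h2
  · exact h1.symm
  · omega
  · omega

theorem fb_eq_iff (T : List (ℕ × ℕ × ℕ)) (b v : ℕ) : fb T b v = v ↔ tgt b (v % 12) = v % 12 := by
  constructor
  · intro h
    rw [← fb_mod T b v, h]
  · intro h
    unfold fb
    rw [if_pos h]

theorem fb_fb (T : List (ℕ × ℕ × ℕ)) (b v : ℕ) : fb T b (fb T b v) = fb T b v := by
  rw [fb_eq_iff, fb_mod, tgt_tgt _ _ (Nat.mod_lt _ (by norm_num))]

theorem fb_lt (T : List (ℕ × ℕ × ℕ)) (b v : ℕ) (hv : v < nv T) : fb T b v < nv T := by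
  have hv' := hv
  unfold nv at hv'
  have h := tgt_lt b (v % 12) (Nat.mod_lt _ (by norm_num))
  by_cases h0 : tgt b (v % 12) = v % 12
  · rw [(fb_eq_iff T b v).2 h0]; exact hv
  · have h3 : 3 ≤ v % 12 := by
      by_contra h3
      exact h0 (tgt_small b _ (by omega))
    have hi : v / 12 < T.length := by omega
    have hr := rep_lt T (tgt b (v % 12)) (v / 12) hi
    unfold fb nv
    rw [if_neg h0]
    split_ifs with h1
    all_goals omega

/-- Non-fixed types with the same target are equal. -/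
theorem tgt_inj_small : ∀ b : Fin 9, ∀ k k' : Fin 12, tgt b k = tgt b k' ∧ tgt b k ≠ k ∧
    tgt b k' ≠ k' → k = k' := by decide

theorem tgt_inj (b k k' : ℕ) (hk : k < 12) (hk' : k' < 12) (h : tgt b k = tgt b k')
    (h1 : tgt b k ≠ k) (h2 : tgt b k' ≠ k') : k = k' := by
  by_cases hb : 9 ≤ b
  · exact absurd (tgt_big b _ hb) h1
  · have := tgt_inj_small ⟨b, by omega⟩ ⟨k, hk⟩ ⟨k', hk'⟩ ⟨h, h1, h2⟩
    simpa using this

theorem bl_two (T : List (ℕ × ℕ × ℕ)) (b u v : ℕ) (h : u ≠ v) :
    bl T b u v = 2 ↔ (fb T b v = u ∨ fb T b u = v) := by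
  unfold bl
  constructor
  · intro h1
    split_ifs at h1 with h2 h3
    · by_cases hu : fb T b u = u
      · left; rw [← h2, hu]
      · right
        by_contra hv
        apply h3
        constructor
        · intro h4; exact absurd h4 hu
        · intro h4
          exact absurd (h2.trans h4) hv
    · omega
  · rintro (h1 | h1)
    · have h2 : fb T b u = u := by rw [← h1]; exact fb_fb T b v
      have h3 : ¬ fb T b v = v := fun h3 => h (h1.symm.trans h3)
      rw [if_pos (h2.trans h1.symm), if_neg]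
      intro h4
      exact h3 (h4.1 h2)
    · have h2 : fb T b v = v := by rw [← h1]; exact fb_fb T b u
      have h3 : ¬ fb T b u = u := fun h3 => h (h3.symm.trans h1)
      rw [if_pos (h1.trans h2.symm), if_neg]
      intro h4
      exact h3 (h4.2 h2)

theorem bl_le_two (T : List (ℕ × ℕ × ℕ)) (b u v : ℕ) : bl T b u v ≤ 2 := by
  unfold bl
  split_ifs <;> omega

/-- With different types there is no conflict. -/
theorem bl_pos_of_mod (T : List (ℕ × ℕ × ℕ)) (b u v : ℕ) (h : u % 12 ≠ v % 12) :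
    1 ≤ bl T b u v := by
  unfold bl
  split_ifs with h1 h2
  · exfalso
    have h3 : tgt b (u % 12) = tgt b (v % 12) := by rw [← fb_mod T, ← fb_mod T, h1]
    rw [fb_eq_iff, fb_eq_iff] at h2
    by_cases h4 : tgt b (u % 12) = u % 12
    · exact h (by rw [← h4, h3, h2.1 h4])
    · exact h (tgt_inj b _ _ (Nat.mod_lt _ (by norm_num)) (Nat.mod_lt _ (by norm_num)) h3 h4
        (fun h5 => h4 (h2.2 h5)))
  · omega
  · omega

theorem bl_free (T : List (ℕ × ℕ × ℕ)) (b u v : ℕ) (h : u ≠ v) (hu : u % 12 < 3)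
    (hv : v % 12 < 3) : bl T b u v = 1 := by
  have h1 : fb T b u = u := (fb_eq_iff T b u).2 (tgt_small b _ hu)
  have h2 : fb T b v = v := (fb_eq_iff T b v).2 (tgt_small b _ hv)
  unfold bl
  rw [h1, h2, if_neg h]

/-- The pair of types of partners determines the block. -/
theorem tgt_unique_small : ∀ b b' : Fin 9, ∀ k : Fin 12, tgt b k ≠ k ∧
    (tgt b' k = tgt b k ∨ tgt b' (tgt b k) = k) → b = b' := by decide

theorem tgt_unique (b b' k k' : ℕ) (hk12 : k < 12) (h : tgt b k = k') (hk : k' ≠ k)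
    (h' : tgt b' k = k' ∨ tgt b' k' = k) : b = b' := by
  subst h
  by_cases hb : 9 ≤ b
  · exact absurd (tgt_big b _ hb) hk
  · by_cases hb' : 9 ≤ b'
    · rw [tgt_big b' _ hb', tgt_big b' _ hb'] at h'
      rcases h' with h' | h'
      · exact absurd h'.symm hk
      · exact absurd h' hk
    · have := tgt_unique_small ⟨b, by omega⟩ ⟨b', by omega⟩ ⟨k, hk12⟩ ⟨hk, h'⟩
      simpa using this

theorem bl_unique (T : List (ℕ × ℕ × ℕ)) (b b' u v : ℕ) (h : u ≠ v) (hb : bl T b u v = 2)
    (hb' : bl T b' u v = 2) : b = b' := by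
  rw [bl_two T b u v h] at hb
  rw [bl_two T b' u v h] at hb'
  have key : ∀ u v : ℕ, u ≠ v → fb T b v = u → (fb T b' v = u ∨ fb T b' u = v) → b = b' := by
    intro u v h hb hb'
    apply tgt_unique b b' (v % 12) (u % 12) (Nat.mod_lt _ (by norm_num))
    · rw [← fb_mod T, hb]
    · intro h1
      have : fb T b v = v := (fb_eq_iff T b v).2 (by rw [← fb_mod T, hb, h1])
      exact h (hb.symm.trans this)
    · rcases hb' with h1 | h1
      · left; rw [← fb_mod T, h1]
      · right; rw [← fb_mod T, h1]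
  rcases hb with hb | hb
  · exact key u v h hb hb'
  · exact key v u h.symm hb hb'.symm

theorem bl_comm (T : List (ℕ × ℕ × ℕ)) (b u v : ℕ) : bl T b u v = bl T b v u := by
  unfold bl
  by_cases h : fb T b u = fb T b v
  · rw [if_pos h, if_pos h.symm]
    by_cases h2 : (fb T b u = u ↔ fb T b v = v)
    · rw [if_pos h2, if_pos h2.symm]
    · rw [if_neg h2, if_neg (fun h3 => h2 h3.symm)]
  · rw [if_neg h, if_neg (fun h3 => h h3.symm)]

/-- Partners: the block is matched, all others are at distance `1`. -/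
theorem bl_partner (T : List (ℕ × ℕ × ℕ)) (b b' v : ℕ) (h : fb T b v ≠ v) :
    bl T b' (fb T b v) v = if b' = b then 2 else 1 := by
  have h1 : bl T b (fb T b v) v = 2 := (bl_two T b _ _ h).2 (Or.inl rfl)
  have hm : fb T b v % 12 ≠ v % 12 := by
    rw [fb_mod]
    intro h2
    exact h ((fb_eq_iff T b v).2 h2)
  have h2 := bl_pos_of_mod T b' _ _ hm
  have h3 := bl_le_two T b' (fb T b v) v
  split_ifs with h4
  · subst h4; exact h1
  · by_contra h5
    have h6 : bl T b' (fb T b v) v = 2 := by omega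
    exact h4 (bl_unique T b' b _ _ h h6 h1)

end Pool.Agent.H569R2.Tri
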