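import Pool.Agent.H671R2.PolyAuto

/-!
# Optimisation problems, AP-reductions, Max-3DM under `L_p` and Max 3DM-B: definitions
-/

namespace Pool.Agent.H569R2.Tri

open Pool.Agent.NPC
open scoped ENNReal

/-! ## Optimisation problems and AP-reductions -/

/-- A function between encodable types is computable in polynomial time: some polynomial-time
Turing machine (in the sense of Mathlib) maps the code of each element to the code of its image. -/
def PolyFun {α β : Type} [TEnc α] [TEnc β] (f : α → β) : Prop :=
  ∃ F : List Bool → List Bool, PolyTime F ∧ ∀ a, F (bits a) = bits (f a)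

/-- An optimisation problem: encodable instances and solutions, the valid instances, the feasible
solutions of an instance, their values, and whether the value is to be maximised. -/
structure OptProblem where
  /-- type of instances -/
  Inst : Type
  /-- type of solutions -/
  Sol : Type
  /-- binary coding of the instances -/
  encI : TEnc Inst
  /-- binary coding of the solutions -/
  encS : TEnc Sol
  /-- the valid instances -/
  valid : Inst → Prop
  /-- `feas x y`: `y` is a feasible solution of `x` -/
  feas : Inst → Sol → Prop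
  /-- the value of a solution -/
  val : Inst → Sol → ℝ
  /-- maximisation or minimisation -/
  isMax : Bool

attribute [instance] OptProblem.encI OptProblem.encS

/-- `y` is a feasible solution of `x` of performance ratio at most `r`: it is within the factor `r`
of every feasible solution. -/
def OptProblem.Within (P : OptProblem) (x : P.Inst) (y : P.Sol) (r : ℝ) : Prop :=
  P.feas x y ∧ ∀ y', P.feas x y' →
    if P.isMax = true then P.val x y' ≤ r * P.val x y else P.val x y ≤ r * P.val x y'

/-- AP-reducibility (Crescenzi, Kann, Silvestri, Trevisan; Ausiello et al., Definition 8.3): there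
are a constant `α` and, for each rational `r > 1`, polynomial-time functions `f r` on instances and
`g r` on solutions such that `f r` preserves validity and existence of solutions, `g r` gives
feasible solutions, and performance ratio at most `r` for `Q` gives performance ratio at most
`1 + α (r - 1)` for `P`. -/
def APReducible (P Q : OptProblem) : Prop :=
  ∃ (f : ℚ → P.Inst → Q.Inst) (g : ℚ → P.Inst × Q.Sol → P.Sol) (α : ℝ), 1 ≤ α ∧
    ∀ r : ℚ, 1 < r → PolyFun (f r) ∧ PolyFun (g r) ∧
      ∀ x : P.Inst, P.valid x → Q.valid (f r x) ∧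
        ((∃ y, P.feas x y) → ∃ y, Q.feas (f r x) y) ∧
        ∀ y : Q.Sol, Q.feas (f r x) y → P.feas x (g r (x, y)) ∧
          (Q.Within (f r x) y r → P.Within x (g r (x, y)) (1 + α * ((r : ℝ) - 1)))

/-- The class `NPO`: valid instances and feasible solutions are recognisable in polynomial time,
feasible solutions have polynomial size, and the values are positive integers computable in
polynomial time. -/
def OptProblem.InNPO (P : OptProblem) : Prop :=
  (∃ d : P.Inst → Bool, PolyFun d ∧ ∀ x, d x = true ↔ P.valid x) ∧
  (∃ e : P.Inst × P.Sol → Bool, PolyFun e ∧ ∀ x y, P.valid x → (e (x, y) = true ↔ P.feas x y)) ∧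
  (∃ q : Polynomial ℕ, ∀ x y, P.valid x → P.feas x y → (bits y).length ≤ q.eval (bits x).length) ∧
  (∃ m : P.Inst × P.Sol → ℕ, PolyFun m ∧ ∀ x y, P.valid x → P.feas x y →
    0 < m (x, y) ∧ P.val x y = m (x, y))

/-- The class `APX`: problems in `NPO` with a polynomial-time algorithm of constant performance
ratio. -/
def OptProblem.InAPX (P : OptProblem) : Prop :=
  P.InNPO ∧ ∃ (c : ℝ) (A : P.Inst → P.Sol), 1 ≤ c ∧ PolyFun A ∧
    ∀ x, P.valid x → (∃ y, P.feas x y) → P.Within x (A x) c

/-- `APX`-hardness: every problem in `APX` is AP-reducible to the problem. -/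
def OptProblem.APXHard (Q : OptProblem) : Prop := ∀ P : OptProblem, P.InAPX → APReducible P Q

/-! ## Max-3DM under `L_p` -/

/-- The distance `‖x - y‖_p`, for `p` in `[1, ∞]`, of two rational points given as lists of
coordinates of the same length. -/
noncomputable def lpDist (p : ℝ≥0∞) (x y : List ℚ) : ℝ :=
  if p = ∞ then (List.zipWith (fun a b : ℚ => |(a : ℝ) - b|) x y).foldr max 0
  else (List.zipWith (fun a b : ℚ => |(a : ℝ) - b| ^ p.toReal) x y).sum ^ (1 / p.toReal)

/-- The vertices (indices of points) of a triple. -/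
def tl (t : ℕ × ℕ × ℕ) : List ℕ := [t.1, t.2.1, t.2.2]

/-- The perimeter of a triple of points, given by indices, for a distance on indices. -/
def perD (D : ℕ → ℕ → ℝ) (t : ℕ × ℕ × ℕ) : ℝ := D t.1 t.2.1 + D t.2.1 t.2.2 + D t.1 t.2.2

/-- The total perimeter, for a distance on indices. -/
def totD (D : ℕ → ℕ → ℝ) (S : List (ℕ × ℕ × ℕ)) : ℝ := (S.map (perD D)).sum

/-- **Max-3DM under `L_p`.**  An instance is a list of `3 n` different points of `ℚ ^ s`, where
`s, n > 0`; a solution is a partition of the points (given by their indices) into triples; the value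
is the total perimeter. -/
noncomputable def MaxTri (p : ℝ≥0∞) : OptProblem where
  Inst := List (List ℚ)
  Sol := List (ℕ × ℕ × ℕ)
  encI := inferInstance
  encS := inferInstance
  valid P := ∃ s n : ℕ, 0 < s ∧ 0 < n ∧ P.length = 3 * n ∧ (∀ x ∈ P, x.length = s) ∧ P.Nodup
  feas P S := (S.flatMap tl).Perm (List.range P.length)
  val P S := totD (fun u v => lpDist p (P.getD u []) (P.getD v [])) S
  isMax := true

/-! ## Max 3DM-B -/

/-- Two triples differ in each coordinate. -/
def differs (s t : ℕ × ℕ × ℕ) : Bool :=
  decide (s.1 ≠ t.1) && decide (s.2.1 ≠ t.2.1) && decide (s.2.2 ≠ t.2.2)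

/-- **Maximum bounded 3-dimensional matching (Max 3DM-B).**  An instance is a set of triples in
which each value occurs at most `B` times in each coordinate; a solution is a subset of triples no
two of which agree in a coordinate; the value is its cardinality. -/
def Max3DM (B : ℕ) : OptProblem where
  Inst := List (ℕ × ℕ × ℕ)
  Sol := List (ℕ × ℕ × ℕ)
  encI := inferInstance
  encS := inferInstance
  valid T := T.Nodup ∧ ∀ a : ℕ, T.countP (fun t => decide (t.1 = a)) ≤ B ∧
    T.countP (fun t => decide (t.2.1 = a)) ≤ B ∧ T.countP (fun t => decide (t.2.2 = a)) ≤ B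
  feas T M := M ⊆ T ∧ M.Pairwise (fun s t => s.1 ≠ t.1 ∧ s.2.1 ≠ t.2.1 ∧ s.2.2 ≠ t.2.2)
  val _ M := M.length
  isMax := true

/-! ## The construction -/

/-- Coordinate number `c` (`0`, `1` or `2`) of a triple. -/
def coord (c : ℕ) (t : ℕ × ℕ × ℕ) : ℕ := if c = 0 then t.1 else if c = 1 then t.2.1 else t.2.2

/-- The first triple that agrees with the `i`-th triple in coordinate `c`. -/
def rep (T : List (ℕ × ℕ × ℕ)) (c i : ℕ) : ℕ :=
  (((List.range T.length).filter (fun j =>
    decide (coord c (T.getD j (0, 0, 0)) = coord c (T.getD i (0, 0, 0))))).head?).getD 0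

/-- Type of the partner, in block `b`, of a vertex of type `k < 12`. Types `0, 1, 2` are the
elements, types `3 + 3 c, 4 + 3 c, 5 + 3 c` are the vertices `A1, A2, A3` of part `c`. -/
def tgt (b k : ℕ) : ℕ :=
  if b = 1 then (if k = 3 then 0 else if k = 6 then 1 else if k = 9 then 2 else k)
  else if b = 2 then (if k = 4 then 0 else if k = 7 then 1 else if k = 10 then 2 else k)
  else if b = 3 then (if k = 4 then 3 else if k = 7 then 6 else if k = 10 then 9 else k)
  else if b = 4 then (if k = 5 then 3 else if k = 8 then 6 else if k = 11 then 9 else k)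
  else if b = 5 then (if k = 5 then 4 else if k = 8 then 7 else if k = 11 then 10 else k)
  else if b = 6 then (if k = 8 then 5 else k)
  else if b = 7 then (if k = 11 then 8 else k)
  else if b = 8 then (if k = 11 then 5 else k)
  else k

/-- Multiplicities of the blocks. -/
def mu (b : ℕ) : ℕ :=
  if b = 0 then 1 else if b = 1 then 6 else if b = 2 then 6 else if b = 3 then 7
  else if b = 4 then 7 else if b = 5 then 7 else 3

/-- Partner of the vertex `v` in block `b` (`v` itself if it has none). -/
def fb (T : List (ℕ × ℕ × ℕ)) (b v : ℕ) : ℕ :=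
  if tgt b (v % 12) = v % 12 then v
  else if tgt b (v % 12) < 3 then 12 * rep T (tgt b (v % 12)) (v / 12) + tgt b (v % 12)
  else 12 * (v / 12) + tgt b (v % 12)

/-- Number of vertices. -/
def nv (T : List (ℕ × ℕ × ℕ)) : ℕ := 12 * T.length + 3

/-- What the distance `D` on the vertices must satisfy: `d0` is the base distance, `w b` the bonus
of block `b`. -/
structure Good (T : List (ℕ × ℕ × ℕ)) (D : ℕ → ℕ → ℝ) (d0 : ℝ) (w : ℕ → ℝ) : Prop where
  upper : ∀ u v, u < nv T → v < nv T → u ≠ v →
    D u v ≤ d0 + ∑ b ∈ Finset.range 9, w b * ((if fb T b v = u then 1 else 0) +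
      (if fb T b u = v then 1 else 0))
  lower : ∀ b v, b < 9 → v < nv T → fb T b v ≠ v → d0 + w b ≤ D (fb T b v) v ∧
    d0 + w b ≤ D v (fb T b v)
  free : ∀ u v, u < nv T → v < nv T → u ≠ v → u % 12 < 3 → v % 12 < 3 → d0 ≤ D u v

/-- The conditions on the weights: `ws`, `wt`, `wr`, `wq`. -/
structure Wts (d0 ws wt wr wq : ℝ) : Prop where
  hd0 : 0 < d0
  hd : 0 < wr - ws
  hq1 : 3 * (wr - ws) ≤ wq
  hq2 : wq ≤ 4 * (wr - ws)
  ht : 7 * (wr - ws) ≤ wt
  hs : wq ≤ ws

/-- The weight function on blocks. -/
def wf (ws wt wr wq : ℝ) (b : ℕ) : ℝ :=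
  if b = 0 then 0 else if b = 1 then ws else if b = 2 then ws else if b = 3 then wt
  else if b = 4 then wr else if b = 5 then wr else wq

/-- Vertices `u` and `v` are in the same triple. -/
def same (S : List (ℕ × ℕ × ℕ)) (u v : ℕ) : Bool :=
  S.any (fun t => decide (u ∈ tl t) && decide (v ∈ tl t))

/-- The element vertex of gadget `i` in coordinate `c`. -/
def ev (T : List (ℕ × ℕ × ℕ)) (c i : ℕ) : ℕ := 12 * rep T c i + c

/-- Gadget `i` is selected: for each part, the element is with `A1` and with `A2`. -/
def selB (T S : List (ℕ × ℕ × ℕ)) (i : ℕ) : Bool :=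
  same S (ev T 0 i) (12 * i + 3) && same S (ev T 0 i) (12 * i + 4) &&
  (same S (ev T 1 i) (12 * i + 6) && same S (ev T 1 i) (12 * i + 7)) &&
  (same S (ev T 2 i) (12 * i + 9) && same S (ev T 2 i) (12 * i + 10))

/-- The selected gadgets. -/
def sel (T S : List (ℕ × ℕ × ℕ)) : List ℕ := (List.range T.length).filter (fun i => selB T S i)

/-- The matching extracted from a partition. -/
def ext (T S : List (ℕ × ℕ × ℕ)) : List (ℕ × ℕ × ℕ) :=
  (sel T S).map (fun i => T.getD i (0, 0, 0))

/-- A greedy maximal matching. -/
def greedy (T : List (ℕ × ℕ × ℕ)) : List (ℕ × ℕ × ℕ) :=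
  T.foldr (fun t acc => if acc.all (fun s => differs s t) = true then t :: acc else acc) []

/-- The back translation: the better of the extracted and the greedy matching. -/
def back (p : List (ℕ × ℕ × ℕ) × List (ℕ × ℕ × ℕ)) : List (ℕ × ℕ × ℕ) :=
  if (greedy p.1).length ≤ (ext p.1 p.2).length then ext p.1 p.2 else greedy p.1

/-! ### The point sets -/

/-- Rows of Sylvester's Hadamard matrix. -/
def row (l : List Bool) : List Bool := l.foldr (fun e r => r ++ r.map (fun x => xor e x)) [true]

/-- The binary digits of `v`, padded to the number of digits of `N`. -/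
def dig (N v : ℕ) : List Bool := N.bits.zipIdx.map (fun q => v.bits.getD q.2 false)

/-- The word of vertex `v` in block `b`. -/
def wordB (T : List (ℕ × ℕ × ℕ)) (b v : ℕ) : List Bool :=
  (row (dig (nv T) (fb T b v))).map (fun x => xor (decide (fb T b v ≠ v)) x)

/-- The word of a vertex: block `b` is repeated `mu b` times. -/
def word (T : List (ℕ × ℕ × ℕ)) (v : ℕ) : List Bool :=
  (List.range 9).flatMap (fun b => (List.range (mu b)).flatMap (fun _ => wordB T b v))

/-- The point set for `p < ∞`. -/
def redH (T : List (ℕ × ℕ × ℕ)) : List (List ℚ) :=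
  (List.range (nv T)).map (fun v => (word T v).map (fun x => if x = true then (1 : ℚ) else -1))

/-- Heights of the blocks for `p = ∞`. -/
def ht (b : ℕ) : ℚ := if b = 0 then 40 else 20 + mu b

/-- The point of vertex `v` for `p = ∞`. -/
def ptI (T : List (ℕ × ℕ × ℕ)) (v : ℕ) : List ℚ :=
  (List.range 9).flatMap (fun b => (List.range (nv T)).map (fun z =>
    if z = fb T b v then (if fb T b v = v then ht b else - ht b) else 0))

/-- The point set for `p = ∞`. -/
def redI (T : List (ℕ × ℕ × ℕ)) : List (List ℚ) := (List.range (nv T)).map (ptI T)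

/-- The reduction. -/
noncomputable def red (p : ℝ≥0∞) (T : List (ℕ × ℕ × ℕ)) : List (List ℚ) :=
  if p = ∞ then redI T else redH T

end Pool.Agent.H569R2.Tri
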