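import Pool.Agent.H569R2.Tri.Iface

/-!
# The weight conditions
-/

namespace Pool.Agent.H569R2.Tri
open scoped ENNReal

theorem wts_inf : Wts 40 12 14 14 6 := by constructor <;> norm_num

/-- Increments of `x ↦ x ^ a` from above (Bernoulli). -/
theorem rpow_add_le (x t a : ℝ) (hx : 0 < x) (ht : 0 ≤ t) (ha : 0 < a) (ha1 : a ≤ 1) :
    (x + t) ^ a - x ^ a ≤ t * (a * x ^ a / x) := by
  have h1 : (x + t) ^ a = x ^ a * (1 + t / x) ^ a := by
    rw [← Real.mul_rpow hx.le (by positivity)]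
    congr 1
    field_simp
  have h0 : 0 ≤ t / x := by positivity
  have h2 : (1 + t / x) ^ a ≤ 1 + a * (t / x) :=
    rpow_one_add_le_one_add_mul_self (by linarith) ha.le ha1
  have h3 : x ^ a * (1 + t / x) ^ a ≤ x ^ a * (1 + a * (t / x)) :=
    mul_le_mul_of_nonneg_left h2 (by positivity)
  rw [h1]
  have h4 : x ^ a * (1 + a * (t / x)) - x ^ a = t * (a * x ^ a / x) := by
    field_simp
    ring
  linarith

/-- Increments of `x ↦ x ^ a` from below (Bernoulli). -/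
theorem le_rpow_sub (x t a : ℝ) (hx : 0 < x) (_ht : 0 ≤ t) (htx : t ≤ x) (ha : 0 < a)
    (ha1 : a ≤ 1) : t * (a * x ^ a / x) ≤ x ^ a - (x - t) ^ a := by
  have h0 : t / x ≤ 1 := by rw [div_le_one hx]; exact htx
  have h1 : (x - t) ^ a = x ^ a * (1 + (-(t / x))) ^ a := by
    rw [← Real.mul_rpow hx.le (by linarith)]
    congr 1
    field_simp
    ring
  have h2 : (1 + (-(t / x))) ^ a ≤ 1 + a * (-(t / x)) :=
    rpow_one_add_le_one_add_mul_self (by linarith) ha.le ha1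
  have h3 : x ^ a * (1 + (-(t / x))) ^ a ≤ x ^ a * (1 + a * (-(t / x))) :=
    mul_le_mul_of_nonneg_left h2 (by positivity)
  rw [h1]
  have h4 : x ^ a - x ^ a * (1 + a * (-(t / x))) = t * (a * x ^ a / x) := by
    field_simp
    ring
  linarith

/-- `x ^ a / x` decreases. -/
theorem rpow_div_anti (x y a : ℝ) (hx : 0 < x) (hxy : x ≤ y) (ha1 : a ≤ 1) :
    y ^ a / y ≤ x ^ a / x := by
  have hy : 0 < y := lt_of_lt_of_le hx hxy
  rw [← Real.rpow_sub_one hy.ne', ← Real.rpow_sub_one hx.ne']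
  exact Real.rpow_le_rpow_of_nonpos hx hxy (by linarith)

theorem wts_fin (a c : ℝ) (ha : 0 < a) (ha1 : a ≤ 1) (hc : 0 < c) :
    Wts (c * (43:ℝ) ^ a) (c * ((49:ℝ) ^ a - (43:ℝ) ^ a)) (c * ((50:ℝ) ^ a - (43:ℝ) ^ a))
      (c * ((50:ℝ) ^ a - (43:ℝ) ^ a)) (c * ((46:ℝ) ^ a - (43:ℝ) ^ a)) := by
  have hd : (49:ℝ) ^ a < (50:ℝ) ^ a := Real.rpow_lt_rpow (by norm_num) (by norm_num) ha
  have h4649 : (46:ℝ) ^ a ≤ (49:ℝ) ^ a := Real.rpow_le_rpow (by norm_num) (by norm_num) ha.le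
  -- `50^a - 49^a` is between the slopes at `49` and `50`
  have u1 := rpow_add_le 49 1 a (by norm_num) (by norm_num) ha ha1
  have l1 := le_rpow_sub 50 1 a (by norm_num) (by norm_num) (by norm_num) ha ha1
  have l46 := le_rpow_sub 46 3 a (by norm_num) (by norm_num) (by norm_num) ha ha1
  have l49 := le_rpow_sub 49 6 a (by norm_num) (by norm_num) (by norm_num) ha ha1
  have u43 := rpow_add_le 43 3 a (by norm_num) (by norm_num) ha ha1
  have s1 := rpow_div_anti 46 49 a (by norm_num) (by norm_num) ha1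
  have m50 : (43:ℝ) ^ a ≤ (50:ℝ) ^ a := Real.rpow_le_rpow (by norm_num) (by norm_num) ha.le
  have p43 : (0:ℝ) < (43:ℝ) ^ a := by positivity
  norm_num at u1 l1 l46 l49 u43
  have s1' : a * (49:ℝ) ^ a / 49 ≤ a * (46:ℝ) ^ a / 46 := by
    have := mul_le_mul_of_nonneg_left s1 ha.le
    calc a * (49:ℝ) ^ a / 49 = a * ((49:ℝ) ^ a / 49) := by ring
      _ ≤ a * ((46:ℝ) ^ a / 46) := this
      _ = a * (46:ℝ) ^ a / 46 := by ring
  have k1 : 3 * ((50:ℝ) ^ a - (49:ℝ) ^ a) ≤ (46:ℝ) ^ a - (43:ℝ) ^ a := by linarith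
  have k2 : (46:ℝ) ^ a - (43:ℝ) ^ a ≤ 4 * ((50:ℝ) ^ a - (49:ℝ) ^ a) := by
    have : a * (43:ℝ) ^ a ≤ a * (50:ℝ) ^ a := mul_le_mul_of_nonneg_left m50 ha.le
    have h0 : 0 < a * (50:ℝ) ^ a := by positivity
    linarith
  have k3 : 7 * ((50:ℝ) ^ a - (49:ℝ) ^ a) ≤ (50:ℝ) ^ a - (43:ℝ) ^ a := by linarith
  refine ⟨by positivity, ?_, ?_, ?_, ?_, ?_⟩
  · nlinarith
  · nlinarith [mul_le_mul_of_nonneg_left k1 hc.le]
  · nlinarith [mul_le_mul_of_nonneg_left k2 hc.le]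
  · nlinarith [mul_le_mul_of_nonneg_left k3 hc.le]
  · nlinarith [mul_le_mul_of_nonneg_left h4649 hc.le]

end Pool.Agent.H569R2.Tri
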