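import Pool.Agent.H569R2.Tri.Comb
import Pool.Agent.H569R2.Tri.Wt

/-!
# The distances of the point sets satisfy `Good`; the points are different
-/

namespace Pool.Agent.H569R2.Tri
open scoped ENNReal

theorem tgt_zero (k : ℕ) : tgt 0 k = k := by simp [tgt]

theorem fb_zero (T : List (ℕ × ℕ × ℕ)) (v : ℕ) : fb T 0 v = v :=
  (fb_eq_iff T 0 v).2 (tgt_zero _)

theorem bl_zero (T : List (ℕ × ℕ × ℕ)) (u v : ℕ) (h : u ≠ v) : bl T 0 u v = 1 := by
  unfold bl
  rw [fb_zero, fb_zero, if_neg h]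

theorem sum_mu : (∑ b ∈ Finset.range 9, (mu b : ℝ)) = 43 := by
  simp [Finset.sum_range_succ, mu]
  norm_num

/-- total weight of the coincidences -/
noncomputable def bsum (T : List (ℕ × ℕ × ℕ)) (u v : ℕ) : ℝ :=
  ∑ b ∈ Finset.range 9, (mu b : ℝ) * bl T b u v

theorem bsum_comm (T : List (ℕ × ℕ × ℕ)) (u v : ℕ) : bsum T u v = bsum T v u := by
  unfold bsum
  simp only [bl_comm T _ u v]

theorem bsum_le_of_two (T : List (ℕ × ℕ × ℕ)) (u v : ℕ) (h : u ≠ v) (b0 : ℕ) (hb0 : b0 < 9)
    (h2 : bl T b0 u v = 2) : bsum T u v ≤ 43 + mu b0 := by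
  have h1 : ∀ b ∈ Finset.range 9, (mu b : ℝ) * bl T b u v ≤
      (mu b : ℝ) + (if b = b0 then (mu b : ℝ) else 0) := by
    intro b _
    have hle : bl T b u v ≤ if b = b0 then 2 else 1 := by
      split_ifs with h3
      · exact bl_le_two T b u v
      · by_contra h4
        have := bl_le_two T b u v
        exact h3 (bl_unique T b b0 u v h (by omega) h2)
    have hle' : (bl T b u v : ℝ) ≤ if b = b0 then 2 else 1 := by
      split_ifs at hle ⊢
      · exact_mod_cast hle
      · exact_mod_cast hle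
    have := mul_le_mul_of_nonneg_left hle' (Nat.cast_nonneg (α := ℝ) (mu b))
    split_ifs at this ⊢ <;> linarith
  have h3 := Finset.sum_le_sum h1
  rw [Finset.sum_add_distrib, sum_mu, Finset.sum_ite_eq' (Finset.range 9) b0,
    if_pos (Finset.mem_range.2 hb0)] at h3
  exact h3

theorem bsum_le (T : List (ℕ × ℕ × ℕ)) (u v : ℕ) (h2 : ∀ b < 9, bl T b u v ≠ 2) :
    bsum T u v ≤ 43 := by
  have h1 : ∀ b ∈ Finset.range 9, (mu b : ℝ) * bl T b u v ≤ (mu b : ℝ) := by
    intro b hb
    have h3 := bl_le_two T b u v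
    have h4 := h2 b (Finset.mem_range.1 hb)
    have hle' : (bl T b u v : ℝ) ≤ 1 := by exact_mod_cast (by omega : bl T b u v ≤ 1)
    have := mul_le_mul_of_nonneg_left hle' (Nat.cast_nonneg (α := ℝ) (mu b))
    linarith
  have h3 := Finset.sum_le_sum h1
  rwa [sum_mu] at h3

theorem bsum_partner (T : List (ℕ × ℕ × ℕ)) (b v : ℕ) (hb : b < 9) (h : fb T b v ≠ v) :
    bsum T (fb T b v) v = 43 + mu b := by
  have h1 : ∀ b' ∈ Finset.range 9, (mu b' : ℝ) * bl T b' (fb T b v) v =
      (mu b' : ℝ) + (if b' = b then (mu b' : ℝ) else 0) := by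
    intro b' _
    rw [bl_partner T b b' v h]
    split_ifs <;> push_cast <;> ring
  unfold bsum
  rw [Finset.sum_congr rfl h1, Finset.sum_add_distrib, sum_mu,
    Finset.sum_ite_eq' (Finset.range 9) b, if_pos (Finset.mem_range.2 hb)]

theorem bsum_free (T : List (ℕ × ℕ × ℕ)) (u v : ℕ) (h : u ≠ v) (hu : u % 12 < 3)
    (hv : v % 12 < 3) : bsum T u v = 43 := by
  unfold bsum
  rw [← sum_mu]
  exact Finset.sum_congr rfl fun b _ => by rw [bl_free T b u v h hu hv]; simp

theorem bsum_pos (T : List (ℕ × ℕ × ℕ)) (u v : ℕ) (h : u ≠ v) : 1 ≤ bsum T u v := by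
  have h1 : (mu 0 : ℝ) * bl T 0 u v ≤ bsum T u v :=
    Finset.single_le_sum (f := fun b => (mu b : ℝ) * bl T b u v)
      (fun b _ => by positivity) (by simp : 0 ∈ Finset.range 9)
  rw [bl_zero T u v h] at h1
  simpa [mu] using h1

theorem wf_fin (a c : ℝ) (b : ℕ) (hb : b < 9) (hb0 : b ≠ 0) :
    wf (c * ((49:ℝ) ^ a - (43:ℝ) ^ a)) (c * ((50:ℝ) ^ a - (43:ℝ) ^ a))
      (c * ((50:ℝ) ^ a - (43:ℝ) ^ a)) (c * ((46:ℝ) ^ a - (43:ℝ) ^ a)) b =
      c * ((43 + mu b : ℝ) ^ a) - c * (43:ℝ) ^ a := by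
  have h1 : 1 ≤ b := by omega
  clear hb0
  interval_cases b <;> simp [wf, mu] <;> norm_num <;> ring

theorem wf_nonneg {d0 ws wt wr wq : ℝ} (h : Wts d0 ws wt wr wq) (b : ℕ) :
    0 ≤ wf ws wt wr wq b := by
  obtain ⟨h0, h1, h2, h3, h4, h5⟩ := h
  unfold wf
  split_ifs <;> linarith

/-- abstract form of the upper estimate -/
theorem upper_of {T : List (ℕ × ℕ × ℕ)} {d0 ws wt wr wq : ℝ} (h : Wts d0 ws wt wr wq)
    {D : ℕ → ℕ → ℝ} {u v : ℕ} (huv : u ≠ v)
    (h1 : (∀ b < 9, bl T b u v ≠ 2) → D u v ≤ d0)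
    (h2 : ∀ b < 9, b ≠ 0 → bl T b u v = 2 → D u v ≤ d0 + wf ws wt wr wq b) :
    D u v ≤ d0 + ∑ b ∈ Finset.range 9, wf ws wt wr wq b *
      ((if fb T b v = u then 1 else 0) + (if fb T b u = v then 1 else 0)) := by
  have hnn : ∀ b ∈ Finset.range 9, 0 ≤ wf ws wt wr wq b *
      ((if fb T b v = u then 1 else 0) + (if fb T b u = v then 1 else 0)) := by
    intro b _
    apply mul_nonneg (wf_nonneg h b)
    split_ifs <;> norm_num
  by_cases hex : ∃ b, b < 9 ∧ bl T b u v = 2
  · obtain ⟨b, hb, hb2⟩ := hex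
    have hb0 : b ≠ 0 := by
      rintro rfl
      rw [bl_zero T u v huv] at hb2
      omega
    refine (h2 b hb hb0 hb2).trans ?_
    have h3 := Finset.single_le_sum hnn (Finset.mem_range.2 hb)
    have h4 : wf ws wt wr wq b ≤ wf ws wt wr wq b *
        ((if fb T b v = u then 1 else 0) + (if fb T b u = v then 1 else 0)) := by
      have hw := wf_nonneg h b
      rcases (bl_two T b u v huv).1 hb2 with h5 | h5
      · rw [if_pos h5]
        split_ifs <;> nlinarith
      · rw [if_pos h5]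
        split_ifs <;> nlinarith
    linarith
  · have := h1 (fun b hb hb2 => hex ⟨b, hb, hb2⟩)
    have h3 := Finset.sum_nonneg hnn
    linarith

/-- the scale factor for `p < ∞` -/
noncomputable def cfin (p : ℝ≥0∞) (T : List (ℕ × ℕ × ℕ)) : ℝ :=
  2 * ((2 : ℝ) ^ (nv T).bits.length / 2) ^ (1 / p.toReal)

theorem cfin_pos (p : ℝ≥0∞) (T : List (ℕ × ℕ × ℕ)) : 0 < cfin p T := by
  unfold cfin; positivity

theorem exp_mem {p : ℝ≥0∞} (hp1 : 1 ≤ p) (hp : p ≠ ∞) : 0 < 1 / p.toReal ∧ 1 / p.toReal ≤ 1 := by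
  have h1 : 1 ≤ p.toReal := by
    have := ENNReal.toReal_mono hp hp1
    simpa using this
  constructor
  · positivity
  · rw [div_le_one (by linarith)]; exact h1

theorem dist_fin (hH : StmtH) {p : ℝ≥0∞} (hp1 : 1 ≤ p) (hp : p ≠ ∞) (T : List (ℕ × ℕ × ℕ))
    (u v : ℕ) (hu : u < nv T) (hv : v < nv T) :
    lpDist p ((redH T).getD u []) ((redH T).getD v []) =
      cfin p T * bsum T u v ^ (1 / p.toReal) := by
  rw [(hH T (fb_lt T)).1 p hp1 hp u v hu hv]
  unfold cfin
  rw [mul_assoc]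
  congr 1
  rw [Real.mul_rpow (by positivity)]
  · rfl
  · exact Finset.sum_nonneg fun b _ => by positivity

theorem good_fin (hH : StmtH) {p : ℝ≥0∞} (hp1 : 1 ≤ p) (hp : p ≠ ∞) (T : List (ℕ × ℕ × ℕ)) :
    Good T (fun u v => lpDist p ((redH T).getD u []) ((redH T).getD v []))
      (cfin p T * (43:ℝ) ^ (1 / p.toReal))
      (wf (cfin p T * ((49:ℝ) ^ (1 / p.toReal) - (43:ℝ) ^ (1 / p.toReal)))
        (cfin p T * ((50:ℝ) ^ (1 / p.toReal) - (43:ℝ) ^ (1 / p.toReal)))
        (cfin p T * ((50:ℝ) ^ (1 / p.toReal) - (43:ℝ) ^ (1 / p.toReal)))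
        (cfin p T * ((46:ℝ) ^ (1 / p.toReal) - (43:ℝ) ^ (1 / p.toReal)))) := by
  obtain ⟨ha, ha1⟩ := exp_mem hp1 hp
  have hc := cfin_pos p T
  have hW := wts_fin (1 / p.toReal) (cfin p T) ha ha1 hc
  refine ⟨?_, ?_, ?_⟩
  · intro u v hu hv huv
    apply upper_of hW huv
    · intro h
      rw [dist_fin hH hp1 hp T u v hu hv]
      apply mul_le_mul_of_nonneg_left _ hc.le
      exact Real.rpow_le_rpow (by linarith [bsum_pos T u v huv]) (bsum_le T u v h) ha.le
    · intro b hb hb0 hb2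
      rw [dist_fin hH hp1 hp T u v hu hv, wf_fin _ _ b hb hb0]
      have : cfin p T * bsum T u v ^ (1 / p.toReal) ≤
          cfin p T * (43 + mu b : ℝ) ^ (1 / p.toReal) := by
        apply mul_le_mul_of_nonneg_left _ hc.le
        exact Real.rpow_le_rpow (by linarith [bsum_pos T u v huv])
          (bsum_le_of_two T u v huv b hb hb2) ha.le
      linarith
  · intro b v hb hv h
    have hb0 : b ≠ 0 := by
      rintro rfl
      exact h (fb_zero T v)
    have hf := fb_lt T b v hv
    change _ ≤ lpDist p _ _ ∧ _ ≤ lpDist p _ _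
    rw [dist_fin hH hp1 hp T _ v hf hv, dist_fin hH hp1 hp T v _ hv hf, bsum_comm T v,
      bsum_partner T b v hb h, wf_fin _ _ b hb hb0]
    constructor <;> linarith
  · intro u v hu hv huv hu3 hv3
    rw [dist_fin hH hp1 hp T u v hu hv, bsum_free T u v huv hu3 hv3]

theorem ht_eq (b : ℕ) (hb : b ≠ 0) : ((ht b : ℚ) : ℝ) = 20 + mu b := by
  unfold ht; rw [if_neg hb]; push_cast; ring

theorem ht_zero : ((ht 0 : ℚ) : ℝ) = 40 := by simp [ht]

theorem mu_le (b : ℕ) : mu b ≤ 7 := by
  unfold mu; split_ifs <;> omega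

theorem wf_inf (b : ℕ) (hb : b < 9) (hb0 : b ≠ 0) : wf 12 14 14 6 b = 2 * mu b := by
  have h1 : 1 ≤ b := by omega
  clear hb0
  interval_cases b <;> simp [wf, mu] <;> norm_num

theorem good_inf (hI : StmtI) (T : List (ℕ × ℕ × ℕ)) :
    Good T (fun u v => lpDist ∞ ((redI T).getD u []) ((redI T).getD v [])) 40
      (wf 12 14 14 6) := by
  have hlow : ∀ u v, u < nv T → v < nv T → ∀ b < 9, 0 < (bl T b u v : ℝ) * ((ht b : ℚ) : ℝ) →
      (bl T b u v : ℝ) * ((ht b : ℚ) : ℝ) ≤ lpDist ∞ ((redI T).getD u []) ((redI T).getD v []) := by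
    intro u v hu hv b hb hpos
    have h1 := ((hI T (fb_lt T)).1 u v hu hv
      (max (lpDist ∞ ((redI T).getD u []) ((redI T).getD v [])) 0) (le_max_right _ _)).1
      (le_max_left _ _) b hb
    rcases le_max_iff.1 h1 with h2 | h2
    · exact h2
    · linarith
  refine ⟨?_, ?_, ?_⟩
  · intro u v hu hv huv
    apply upper_of wts_inf huv
    · intro h
      rw [(hI T (fb_lt T)).1 u v hu hv 40 (by norm_num)]
      intro b hb
      have h3 := bl_le_two T b u v
      have h4 := h b hb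
      have h5 : (bl T b u v : ℝ) ≤ 1 := by exact_mod_cast (by omega : bl T b u v ≤ 1)
      have h6 : ((ht b : ℚ) : ℝ) ≤ 40 ∧ 0 ≤ ((ht b : ℚ) : ℝ) := by
        by_cases hb0 : b = 0
        · subst hb0; rw [ht_zero]; norm_num
        · rw [ht_eq b hb0]
          have : (mu b : ℝ) ≤ 7 := by exact_mod_cast mu_le b
          constructor
          · linarith
          · positivity
      nlinarith [h6.1, h6.2, Nat.cast_nonneg (α := ℝ) (bl T b u v)]
    · intro b hb hb0 hb2
      rw [(hI T (fb_lt T)).1 u v hu hv _ (by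
        have := wf_nonneg wts_inf b
        linarith)]
      intro b' hb'
      rw [wf_inf b hb hb0]
      by_cases h2 : bl T b' u v = 2
      · have := bl_unique T b' b u v huv h2 hb2
        subst this
        rw [h2, ht_eq _ hb0]
        push_cast
        linarith
      · have h3 := bl_le_two T b' u v
        have h5 : (bl T b' u v : ℝ) ≤ 1 := by exact_mod_cast (by omega : bl T b' u v ≤ 1)
        have h6 : ((ht b' : ℚ) : ℝ) ≤ 40 ∧ 0 ≤ ((ht b' : ℚ) : ℝ) := by
          by_cases hb0 : b' = 0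
          · subst hb0; rw [ht_zero]; norm_num
          · rw [ht_eq b' hb0]
            have : (mu b' : ℝ) ≤ 7 := by exact_mod_cast mu_le b'
            constructor
            · linarith
            · positivity
        have h7 : (0:ℝ) ≤ mu b := Nat.cast_nonneg _
        nlinarith [h6.1, h6.2, Nat.cast_nonneg (α := ℝ) (bl T b' u v)]
  · intro b v hb hv h
    have hb0 : b ≠ 0 := by
      rintro rfl
      exact h (fb_zero T v)
    have hf := fb_lt T b v hv
    have e1 : (bl T b (fb T b v) v : ℝ) * ((ht b : ℚ) : ℝ) = 40 + wf 12 14 14 6 b := by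
      rw [bl_partner T b b v h, if_pos rfl, ht_eq b hb0, wf_inf b hb hb0]
      push_cast
      ring
    have hpos : 0 < (bl T b (fb T b v) v : ℝ) * ((ht b : ℚ) : ℝ) := by
      rw [e1]; have := wf_nonneg wts_inf b; linarith
    constructor
    · have := hlow (fb T b v) v hf hv b hb hpos
      rwa [e1] at this
    · have hpos' : 0 < (bl T b v (fb T b v) : ℝ) * ((ht b : ℚ) : ℝ) := by
        rw [bl_comm T b v]; exact hpos
      have := hlow v (fb T b v) hv hf b hb hpos'
      rw [bl_comm T b v, e1] at this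
      exact this
  · intro u v hu hv huv _ _
    have := hlow u v hu hv 0 (by norm_num) (by rw [bl_zero T u v huv, ht_zero]; norm_num)
    rw [bl_zero T u v huv, ht_zero] at this
    simpa using this

/-! ### The points are different -/

theorem foldr_max_zero (l : List ℝ) (h : ∀ x ∈ l, x = 0) : l.foldr max 0 = 0 := by
  induction l with
  | nil => rfl
  | cons a l ih =>
    rw [List.foldr_cons, ih (fun x hx => h x (List.mem_cons_of_mem _ hx)), h a (by simp)]
    simp

theorem zipWith_self {α β : Type} (f : α → α → β) (l : List α) :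
    List.zipWith f l l = l.map (fun a => f a a) := by
  induction l with
  | nil => rfl
  | cons a l ih => simp

theorem lpDist_self (p : ℝ≥0∞) (hp1 : 1 ≤ p) (x : List ℚ) : lpDist p x x = 0 := by
  unfold lpDist
  split_ifs with hp
  · rw [zipWith_self]
    apply foldr_max_zero
    simp
  · rw [zipWith_self]
    obtain ⟨ha, _⟩ := exp_mem hp1 hp
    have hpos : 0 < p.toReal := by
      by_contra h
      have : 1 / p.toReal ≤ 0 := by
        apply div_nonpos_of_nonneg_of_nonpos <;> linarith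
      linarith
    simp only [sub_self, abs_zero, Real.zero_rpow hpos.ne', List.map_const', List.sum_replicate,
      smul_zero, Real.zero_rpow ha.ne']

theorem nodup_of_dist {n : ℕ} (P : ℕ → List ℚ) (p : ℝ≥0∞) (hp1 : 1 ≤ p)
    (h : ∀ u v, u < n → v < n → u ≠ v → 0 < lpDist p (P u) (P v)) :
    ((List.range n).map P).Nodup := by
  rw [List.nodup_map_iff_inj_on List.nodup_range]
  intro u hu v hv huv
  by_contra hne
  have := h u v (List.mem_range.1 hu) (List.mem_range.1 hv) hne
  rw [huv, lpDist_self p hp1] at this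
  exact lt_irrefl _ this

theorem getD_map_range (n : ℕ) (P : ℕ → List ℚ) (u : ℕ) (hu : u < n) :
    ((List.range n).map P).getD u [] = P u := by
  rw [List.getD_eq_getElem _ _ (by simpa using hu)]
  simp

theorem nodup_redH (hH : StmtH) (T : List (ℕ × ℕ × ℕ)) : (redH T).Nodup := by
  apply nodup_of_dist _ 1 le_rfl
  intro u v hu hv huv
  have h1 := dist_fin hH (p := 1) le_rfl ENNReal.one_ne_top T u v hu hv
  unfold redH at h1
  rw [getD_map_range _ _ u hu, getD_map_range _ _ v hv] at h1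
  rw [h1]
  have := bsum_pos T u v huv
  have := cfin_pos 1 T
  positivity

theorem nodup_redI (hI : StmtI) (T : List (ℕ × ℕ × ℕ)) : (redI T).Nodup := by
  apply nodup_of_dist _ ∞ le_top
  intro u v hu hv huv
  have h1 := (hI T (fb_lt T)).1 u v hu hv 0 le_rfl
  unfold redI at h1
  rw [getD_map_range _ _ u hu, getD_map_range _ _ v hv] at h1
  by_contra h2
  have h3 := h1.1 (not_lt.1 h2) 0 (by norm_num)
  rw [bl_zero T u v huv, ht_zero] at h3
  norm_num at h3

end Pool.Agent.H569R2.Tri
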