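import Pool.Agent.H569R2.Tri.Part

/-!
# The extracted matching and the greedy matching
-/

namespace Pool.Agent.H569R2.Tri

theorem sel_coord {T S : List (ℕ × ℕ × ℕ)} (hS : IsPart (nv T) S) {cl : ℕ → ℕ × ℕ × ℕ}
    (hcl : ∀ v < nv T, cl v ∈ S ∧ v ∈ tl (cl v)) {i : ℕ} (hi : i < T.length)
    (h : selB T S i = true) {c : ℕ} (hc : c < 3) :
    cl (12 * i + 3 + 3 * c) = cl (ev T c i) ∧ cl (12 * i + 4 + 3 * c) = cl (ev T c i) := by
  have n : ∀ k < 12, 12 * i + k < nv T := by intro k hk; unfold nv; omega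
  have hr := fun c => rep_lt T c i hi
  have m : ∀ c < 3, ev T c i < nv T := by
    intro c hc
    have := hr c
    unfold ev nv; omega
  have s : ∀ {u v : ℕ}, u < nv T → v < nv T → (same S u v = true ↔ cl u = cl v) :=
    fun hu hv => same_iff hS hcl hu hv
  unfold selB at h
  simp only [Bool.and_eq_true] at h
  rw [s (m 0 (by norm_num)) (n 3 (by norm_num)), s (m 0 (by norm_num)) (n 4 (by norm_num)),
    s (m 1 (by norm_num)) (n 6 (by norm_num)), s (m 1 (by norm_num)) (n 7 (by norm_num)),
    s (m 2 (by norm_num)) (n 9 (by norm_num)), s (m 2 (by norm_num)) (n 10 (by norm_num))] at h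
  obtain ⟨⟨⟨h1, h2⟩, h3, h4⟩, h5, h6⟩ := h
  interval_cases c
  · exact ⟨h1.symm, h2.symm⟩
  · exact ⟨h3.symm, h4.symm⟩
  · exact ⟨h5.symm, h6.symm⟩

theorem sel_disj {T S : List (ℕ × ℕ × ℕ)} (hS : IsPart (nv T) S) {i j : ℕ} (hi : i < T.length)
    (hj : j < T.length) (hij : i ≠ j) (h : selB T S i = true) (h' : selB T S j = true) {c : ℕ}
    (hc : c < 3) : coord c (T.getD i (0, 0, 0)) ≠ coord c (T.getD j (0, 0, 0)) := by
  intro he
  obtain ⟨cl, hcl⟩ := hS.exists_cl
  rw [← rep_eq_iff T c i j hi hj] at he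
  have hx : ev T c i = ev T c j := by unfold ev; rw [he]
  have h1 := sel_coord hS hcl hi h hc
  have h2 := sel_coord hS hcl hj h' hc
  rw [← hx] at h2
  have hr := rep_lt T c i hi
  have m : ev T c i < nv T := by unfold ev nv; omega
  refine four (fun v hv => (hcl v hv).2) (a := ev T c i) (b := 12 * i + 3 + 3 * c)
    (c := 12 * i + 4 + 3 * c) (d := 12 * j + 3 + 3 * c) m (by unfold nv; omega)
    (by unfold nv; omega) (by unfold nv; omega) ?_ ?_ ?_ ?_ ?_ ?_ ⟨h1.1, h1.2, h2.1⟩
  all_goals (try unfold ev); omega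

theorem getD_mem {T : List (ℕ × ℕ × ℕ)} {i : ℕ} (hi : i < T.length) :
    T.getD i (0, 0, 0) ∈ T := by
  rw [List.getD_eq_getElem _ _ hi]
  exact List.getElem_mem hi

theorem ext_feas {T S : List (ℕ × ℕ × ℕ)} (hS : IsPart (nv T) S) :
    ext T S ⊆ T ∧ (ext T S).Pairwise (fun s t => s.1 ≠ t.1 ∧ s.2.1 ≠ t.2.1 ∧ s.2.2 ≠ t.2.2) := by
  constructor
  · intro t ht
    unfold ext sel at ht
    simp only [List.mem_map, List.mem_filter, List.mem_range] at ht
    obtain ⟨i, ⟨hi, _⟩, rfl⟩ := ht
    exact getD_mem hi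
  · unfold ext
    rw [List.pairwise_map]
    have h1 : (sel T S).Pairwise (fun i j => i < j) := List.Pairwise.filter _ List.pairwise_lt_range
    refine h1.imp_of_mem ?_
    intro i j hi hj hij
    unfold sel at hi hj
    simp only [List.mem_filter, List.mem_range] at hi hj
    have k := fun c hc => sel_disj hS hi.1 hj.1 (by omega) hi.2 hj.2 (c := c) hc
    refine ⟨?_, ?_, ?_⟩
    · have := k 0 (by norm_num)
      simpa [coord] using this
    · have := k 1 (by norm_num)
      simpa [coord] using this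
    · have := k 2 (by norm_num)
      simpa [coord] using this

/-! ### The greedy matching -/

theorem differs_iff (s t : ℕ × ℕ × ℕ) :
    differs s t = true ↔ s.1 ≠ t.1 ∧ s.2.1 ≠ t.2.1 ∧ s.2.2 ≠ t.2.2 := by
  unfold differs
  simp only [Bool.and_eq_true, decide_eq_true_eq, and_assoc]

theorem greedy_cons (t : ℕ × ℕ × ℕ) (T : List (ℕ × ℕ × ℕ)) : greedy (t :: T) =
    if (greedy T).all (fun s => differs s t) = true then t :: greedy T else greedy T := rfl

theorem greedy_subset (T : List (ℕ × ℕ × ℕ)) : greedy T ⊆ T := by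
  induction T with
  | nil => simp [greedy]
  | cons t T ih =>
    rw [greedy_cons]
    split_ifs
    · exact List.cons_subset_cons _ ih
    · exact List.subset_cons_of_subset _ ih

theorem greedy_pairwise (T : List (ℕ × ℕ × ℕ)) :
    (greedy T).Pairwise (fun s t => s.1 ≠ t.1 ∧ s.2.1 ≠ t.2.1 ∧ s.2.2 ≠ t.2.2) := by
  induction T with
  | nil => simp [greedy]
  | cons t T ih =>
    rw [greedy_cons]
    split_ifs with h
    · rw [List.pairwise_cons]
      refine ⟨fun s hs => ?_, ih⟩
      rw [List.all_eq_true] at h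
      have := (differs_iff s t).1 (h s hs)
      exact ⟨this.1.symm, this.2.1.symm, this.2.2.symm⟩
    · exact ih

theorem greedy_maximal (T : List (ℕ × ℕ × ℕ)) :
    ∀ t ∈ T, ∃ s ∈ greedy T, s.1 = t.1 ∨ s.2.1 = t.2.1 ∨ s.2.2 = t.2.2 := by
  induction T with
  | nil => simp
  | cons t T ih =>
    intro u hu
    rw [greedy_cons]
    rcases List.mem_cons.1 hu with rfl | hu
    · split_ifs with h
      · exact ⟨u, by simp, Or.inl rfl⟩
      · rw [List.all_eq_true] at h
        push Not at h
        obtain ⟨s, hs, h2⟩ := h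
        refine ⟨s, hs, ?_⟩
        rw [Ne, differs_iff] at h2
        by_contra h3
        push Not at h3
        exact h2 h3
    · obtain ⟨s, hs, h1⟩ := ih u hu
      split_ifs
      · exact ⟨s, List.mem_cons_of_mem _ hs, h1⟩
      · exact ⟨s, hs, h1⟩

theorem length_le_of_cover (B : ℕ) (T : List (ℕ × ℕ × ℕ))
    (hB : ∀ a : ℕ, T.countP (fun t => decide (t.1 = a)) ≤ B ∧
      T.countP (fun t => decide (t.2.1 = a)) ≤ B ∧ T.countP (fun t => decide (t.2.2 = a)) ≤ B) :
    ∀ G : List (ℕ × ℕ × ℕ),
      T.countP (fun t => decide (∃ s ∈ G, s.1 = t.1 ∨ s.2.1 = t.2.1 ∨ s.2.2 = t.2.2)) ≤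
        3 * B * G.length := by
  intro G
  induction G with
  | nil => simp
  | cons s G ih =>
    obtain ⟨b1, _, _⟩ := hB s.1
    obtain ⟨_, b2, _⟩ := hB s.2.1
    obtain ⟨_, _, b3⟩ := hB s.2.2
    have key : ∀ L : List (ℕ × ℕ × ℕ),
        L.countP (fun t => decide (∃ r ∈ s :: G, r.1 = t.1 ∨ r.2.1 = t.2.1 ∨ r.2.2 = t.2.2)) ≤
        L.countP (fun t => decide (t.1 = s.1)) + L.countP (fun t => decide (t.2.1 = s.2.1)) +
        L.countP (fun t => decide (t.2.2 = s.2.2)) +
        L.countP (fun t => decide (∃ r ∈ G, r.1 = t.1 ∨ r.2.1 = t.2.1 ∨ r.2.2 = t.2.2)) := by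
      intro L
      induction L with
      | nil => simp
      | cons u L ihL =>
        simp only [List.countP_cons, decide_eq_true_eq]
        by_cases k1 : u.1 = s.1
        · simp only [k1, if_true]
          split_ifs <;> omega
        · by_cases k2 : u.2.1 = s.2.1
          · simp only [k2, if_true]
            split_ifs <;> omega
          · by_cases k3 : u.2.2 = s.2.2
            · simp only [k3, if_true]
              split_ifs <;> omega
            · by_cases k4 : ∃ r ∈ G, r.1 = u.1 ∨ r.2.1 = u.2.1 ∨ r.2.2 = u.2.2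
              · simp only [k4, if_true]
                split_ifs <;> omega
              · have k5 : ¬ ∃ r ∈ s :: G, r.1 = u.1 ∨ r.2.1 = u.2.1 ∨ r.2.2 = u.2.2 := by
                  rintro ⟨r, hr, h⟩
                  rcases List.mem_cons.1 hr with rfl | hr
                  · rcases h with h | h | h
                    · exact k1 h.symm
                    · exact k2 h.symm
                    · exact k3 h.symm
                  · exact k4 ⟨r, hr, h⟩
                rw [if_neg k5]
                omega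
    have := key T
    rw [List.length_cons]
    nlinarith

theorem greedy_length (B : ℕ) (T : List (ℕ × ℕ × ℕ))
    (hB : ∀ a : ℕ, T.countP (fun t => decide (t.1 = a)) ≤ B ∧
      T.countP (fun t => decide (t.2.1 = a)) ≤ B ∧ T.countP (fun t => decide (t.2.2 = a)) ≤ B) :
    T.length ≤ 3 * B * (greedy T).length := by
  refine le_trans (le_of_eq ?_) (length_le_of_cover B T hB (greedy T))
  symm
  rw [List.countP_eq_length]
  intro t ht
  simpa using greedy_maximal T t ht

end Pool.Agent.H569R2.Tri
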