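import Pool.Agent.H569R2.Tri.Defs

/-!
# Statements of the parts (as propositions)
-/

namespace Pool.Agent.H569R2.Tri
open Pool.Agent.NPC
open scoped ENNReal

/-- Kind of coincidence of `u` and `v` in block `b`: `1` if the rows differ, `2` if they are equal
with opposite signs, `0` if they are equal with equal signs. -/
def bl (T : List (ℕ × ℕ × ℕ)) (b u v : ℕ) : ℕ :=
  if fb T b u = fb T b v then (if (fb T b u = u ↔ fb T b v = v) then 0 else 2) else 1

/-- TASK H (Hadamard). Distances of the point set for `p < ∞`; all points have the same positive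
dimension. `hfb` is proved in task A. -/
def StmtH : Prop := ∀ (T : List (ℕ × ℕ × ℕ)) (_ : ∀ b v, v < nv T → fb T b v < nv T),
  (∀ p : ℝ≥0∞, 1 ≤ p → p ≠ ∞ → ∀ u v, u < nv T → v < nv T →
    lpDist p ((redH T).getD u []) ((redH T).getD v []) =
      2 * ((2 : ℝ) ^ (nv T).bits.length / 2 *
        ∑ b ∈ Finset.range 9, (mu b : ℝ) * bl T b u v) ^ (1 / p.toReal)) ∧
  ∃ s, 0 < s ∧ ∀ x ∈ redH T, x.length = s

/-- TASK I (one-hot). Distances of the point set for `p = ∞`. -/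
def StmtI : Prop := ∀ (T : List (ℕ × ℕ × ℕ)) (_ : ∀ b v, v < nv T → fb T b v < nv T),
  (∀ u v, u < nv T → v < nv T → ∀ x : ℝ, 0 ≤ x →
    (lpDist ∞ ((redI T).getD u []) ((redI T).getD v []) ≤ x ↔
      ∀ b < 9, (bl T b u v : ℝ) * ((ht b : ℚ) : ℝ) ≤ x)) ∧
  ∃ s, 0 < s ∧ ∀ x ∈ redI T, x.length = s

/-- TASK U (upper bound on the perimeter of a partition). -/
def StmtU : Prop := ∀ (T : List (ℕ × ℕ × ℕ)) (D : ℕ → ℕ → ℝ) (d0 ws wt wr wq : ℝ),
  Good T D d0 (wf ws wt wr wq) → Wts d0 ws wt wr wq →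
  (∀ c i, i < T.length → rep T c i < T.length) →
  ∀ S : List (ℕ × ℕ × ℕ), (S.flatMap tl).Perm (List.range (nv T)) →
    totD D S ≤ (nv T : ℝ) * d0 + (3 * wt + 6 * wr) * T.length +
      (3 * wq - 6 * (wr - ws)) * (sel T S).length

/-- TASK E (the extracted matching is feasible). -/
def StmtE : Prop := ∀ T : List (ℕ × ℕ × ℕ), T.Nodup →
  (∀ c i j, i < T.length → j < T.length → (rep T c i = rep T c j ↔
      coord c (T.getD i (0, 0, 0)) = coord c (T.getD j (0, 0, 0)))) →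
  (∀ c i, i < T.length → rep T c i < T.length) →
  ∀ S : List (ℕ × ℕ × ℕ), (S.flatMap tl).Perm (List.range (nv T)) →
    ext T S ⊆ T ∧ (ext T S).Pairwise (fun s t => s.1 ≠ t.1 ∧ s.2.1 ≠ t.2.1 ∧ s.2.2 ≠ t.2.2)

/-- TASK L (lower bound: a good partition from a matching). -/
def StmtL : Prop := ∀ (T : List (ℕ × ℕ × ℕ)) (D : ℕ → ℕ → ℝ) (d0 ws wt wr wq : ℝ), T.Nodup →
  Good T D d0 (wf ws wt wr wq) → Wts d0 ws wt wr wq →
  (∀ c i j, i < T.length → j < T.length → (rep T c i = rep T c j ↔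
      coord c (T.getD i (0, 0, 0)) = coord c (T.getD j (0, 0, 0)))) →
  (∀ c i, i < T.length → rep T c i < T.length) →
  ∀ M : List (ℕ × ℕ × ℕ), M ⊆ T →
    M.Pairwise (fun s t => s.1 ≠ t.1 ∧ s.2.1 ≠ t.2.1 ∧ s.2.2 ≠ t.2.2) →
    ∃ S : List (ℕ × ℕ × ℕ), (S.flatMap tl).Perm (List.range (nv T)) ∧
      (nv T : ℝ) * d0 + (3 * wt + 6 * wr) * T.length + (3 * wq - 6 * (wr - ws)) * M.length ≤
        totD D S

/-- TASK P (polynomial time). -/
def StmtP : Prop := Poly redH ∧ Poly redI ∧ Poly back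

/-- TASK G (greedy matching). -/
def StmtG : Prop := ∀ (B : ℕ) (T : List (ℕ × ℕ × ℕ)), (Max3DM B).valid T →
  (Max3DM B).feas T (greedy T) ∧ T.length ≤ 3 * B * (greedy T).length

end Pool.Agent.H569R2.Tri
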