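import Pool.Agent.H569R2.Tri.Upp
import Pool.Agent.H569R2.Tri.Ext

/-!
# The lower bound: a partition from a matching
-/

namespace Pool.Agent.H569R2.Tri

/-- The triples of gadget `i`. -/
def gad (T M : List (ℕ × ℕ × ℕ)) (i : ℕ) : List (ℕ × ℕ × ℕ) :=
  if T.getD i (0, 0, 0) ∈ M then
    [(ev T 0 i, 12 * i + 3, 12 * i + 4), (ev T 1 i, 12 * i + 6, 12 * i + 7),
      (ev T 2 i, 12 * i + 9, 12 * i + 10), (12 * i + 5, 12 * i + 8, 12 * i + 11)]
  else [(12 * i + 3, 12 * i + 4, 12 * i + 5), (12 * i + 6, 12 * i + 7, 12 * i + 8),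
    (12 * i + 9, 12 * i + 10, 12 * i + 11)]

/-- Cut a list into triples. -/
def chunk3 : List ℕ → List (ℕ × ℕ × ℕ)
  | a :: b :: c :: l => (a, b, c) :: chunk3 l
  | _ => []

theorem chunk3_flat : ∀ l : List ℕ, 3 ∣ l.length → (chunk3 l).flatMap tl = l
  | [], _ => rfl
  | [a], h => by simp at h
  | [a, b], h => by simp at h
  | a :: b :: c :: l, h => by
    have h1 : 3 ∣ l.length := by
      simp only [List.length_cons] at h
      omega
    rw [chunk3, List.flatMap_cons, chunk3_flat l h1]
    rfl

/-- The triples of all gadgets. -/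
def gads (T M : List (ℕ × ℕ × ℕ)) : List (ℕ × ℕ × ℕ) := (List.range T.length).flatMap (gad T M)

/-- The partition. -/
def bpart (T M : List (ℕ × ℕ × ℕ)) : List (ℕ × ℕ × ℕ) :=
  gads T M ++ chunk3 ((List.range (nv T)).filter (fun v => decide (v ∉ (gads T M).flatMap tl)))

theorem mem_gad (T M : List (ℕ × ℕ × ℕ)) (i v : ℕ) : v ∈ (gad T M i).flatMap tl ↔
    (v / 12 = i ∧ 3 ≤ v % 12) ∨ (T.getD i (0, 0, 0) ∈ M ∧ ∃ c < 3, v = ev T c i) := by
  unfold gad
  by_cases h : T.getD i (0, 0, 0) ∈ M
  · rw [if_pos h]
    simp only [tl, List.flatMap_cons, List.flatMap_nil, List.append_nil, List.cons_append,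
      List.nil_append, List.mem_cons, List.not_mem_nil, or_false, h, true_and]
    constructor
    · intro h1
      by_cases h2 : v = ev T 0 i ∨ v = ev T 1 i ∨ v = ev T 2 i
      · right
        rcases h2 with h2 | h2 | h2
        · exact ⟨0, by norm_num, h2⟩
        · exact ⟨1, by norm_num, h2⟩
        · exact ⟨2, by norm_num, h2⟩
      · left; omega
    · rintro (h1 | ⟨c, hc, h1⟩)
      · omega
      · interval_cases c
        · exact Or.inl h1
        · exact Or.inr (Or.inr (Or.inr (Or.inl h1)))
        · exact Or.inr (Or.inr (Or.inr (Or.inr (Or.inr (Or.inr (Or.inl h1))))))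
  · rw [if_neg h]
    simp only [tl, List.flatMap_cons, List.flatMap_nil, List.append_nil, List.cons_append,
      List.nil_append, List.mem_cons, List.not_mem_nil, or_false, h, false_and]
    omega

theorem gad_nodup (T M : List (ℕ × ℕ × ℕ)) (i : ℕ) : ((gad T M i).flatMap tl).Nodup := by
  unfold gad ev
  split_ifs
  · simp only [tl, List.flatMap_cons, List.flatMap_nil, List.append_nil, List.cons_append,
      List.nil_append, List.nodup_cons, List.mem_cons, List.not_mem_nil, or_false, not_or,
      not_false_eq_true, List.nodup_nil, and_true]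
    omega
  · simp only [tl, List.flatMap_cons, List.flatMap_nil, List.append_nil, List.cons_append,
      List.nil_append, List.nodup_cons, List.mem_cons, List.not_mem_nil, or_false, not_or,
      not_false_eq_true, List.nodup_nil, and_true]
    omega

theorem match_coord : ∀ (M : List (ℕ × ℕ × ℕ)),
    M.Pairwise (fun s t => s.1 ≠ t.1 ∧ s.2.1 ≠ t.2.1 ∧ s.2.2 ≠ t.2.2) → ∀ {s t : ℕ × ℕ × ℕ},
    s ∈ M → t ∈ M → s ≠ t → ∀ c < 3, coord c s ≠ coord c t := by
  intro M
  induction M with
  | nil => intro _ s t hs; simp at hs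
  | cons a M ih =>
    intro h s t hs ht hst c hc
    rw [List.pairwise_cons] at h
    have key : ∀ u ∈ M, coord c a ≠ coord c u := by
      intro u hu
      have := h.1 u hu
      interval_cases c <;> simp [coord, this]
    rcases List.mem_cons.1 hs with hs' | hs' <;> rcases List.mem_cons.1 ht with ht' | ht'
    · exact absurd (hs'.trans ht'.symm) hst
    · rw [hs']; exact key t ht'
    · rw [ht']; exact (key s hs').symm
    · exact ih h.2 hs' ht' hst c hc

theorem gads_nodup {T M : List (ℕ × ℕ × ℕ)} (hT : T.Nodup)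
    (hM : M.Pairwise (fun s t => s.1 ≠ t.1 ∧ s.2.1 ≠ t.2.1 ∧ s.2.2 ≠ t.2.2)) :
    ((gads T M).flatMap tl).Nodup := by
  unfold gads
  rw [List.flatMap_assoc, List.nodup_flatMap]
  refine ⟨fun i _ => gad_nodup T M i, ?_⟩
  refine List.Pairwise.imp_of_mem ?_ (List.pairwise_lt_range (n := T.length))
  intro i j hi hj hij
  have hi' := List.mem_range.1 hi
  have hj' := List.mem_range.1 hj
  intro v hv1 hv2
  rw [mem_gad] at hv1 hv2
  rcases hv1 with hv1 | ⟨hm1, c, hc, hv1⟩
  · rcases hv2 with hv2 | ⟨hm2, c', hc', hv2⟩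
    · omega
    · unfold ev at hv2; omega
  · rcases hv2 with hv2 | ⟨hm2, c', hc', hv2⟩
    · unfold ev at hv1; omega
    · unfold ev at hv1 hv2
      have hcc : c = c' := by omega
      subst hcc
      have hr : rep T c i = rep T c j := by omega
      rw [rep_eq_iff T c i j hi' hj'] at hr
      refine match_coord M hM hm1 hm2 ?_ c hc hr
      intro he
      rw [List.getD_eq_getElem _ _ hi', List.getD_eq_getElem _ _ hj'] at he
      have := (List.Nodup.getElem_inj_iff hT).1 he
      omega

theorem gads_lt {T M : List (ℕ × ℕ × ℕ)} {v : ℕ} (hv : v ∈ (gads T M).flatMap tl) :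
    v < nv T := by
  unfold gads at hv
  rw [List.flatMap_assoc, List.mem_flatMap] at hv
  obtain ⟨i, hi, hv⟩ := hv
  have hi' := List.mem_range.1 hi
  rw [mem_gad] at hv
  rcases hv with hv | ⟨_, c, hc, hv⟩
  · unfold nv; omega
  · have := rep_lt T c i hi'
    unfold ev at hv
    unfold nv; omega

theorem left_free {T M : List (ℕ × ℕ × ℕ)} {v : ℕ} (hv : v < nv T)
    (h : v ∉ (gads T M).flatMap tl) : v % 12 < 3 := by
  by_contra h3
  apply h
  unfold gads
  rw [List.flatMap_assoc, List.mem_flatMap]
  unfold nv at hv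
  refine ⟨v / 12, List.mem_range.2 (by omega), ?_⟩
  rw [mem_gad]
  exact Or.inl ⟨rfl, by omega⟩

theorem length_flat (S : List (ℕ × ℕ × ℕ)) : (S.flatMap tl).length = 3 * S.length := by
  induction S with
  | nil => rfl
  | cons t S ih =>
    rw [List.flatMap_cons, List.length_append, ih]
    simp [tl]; ring

theorem bpart_perm {T M : List (ℕ × ℕ × ℕ)} (hT : T.Nodup)
    (hM : M.Pairwise (fun s t => s.1 ≠ t.1 ∧ s.2.1 ≠ t.2.1 ∧ s.2.2 ≠ t.2.2)) :
    IsPart (nv T) (bpart T M) ∧ 3 ∣ ((List.range (nv T)).filter
      (fun v => decide (v ∉ (gads T M).flatMap tl))).length := by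
  set L := (List.range (nv T)).filter (fun v => decide (v ∉ (gads T M).flatMap tl)) with hL
  have h1 : ((gads T M).flatMap tl ++ L).Perm (List.range (nv T)) := by
    rw [List.perm_ext_iff_of_nodup ?_ List.nodup_range]
    · intro v
      rw [List.mem_append, List.mem_range, hL, List.mem_filter, List.mem_range]
      constructor
      · rintro (h | h)
        · exact gads_lt h
        · exact h.1
      · intro h
        by_cases h2 : v ∈ (gads T M).flatMap tl
        · exact Or.inl h2
        · exact Or.inr ⟨h, by simpa using h2⟩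
    · rw [List.nodup_append]
      refine ⟨gads_nodup hT hM, List.nodup_range.filter _, ?_⟩
      intro a ha b hb hab
      subst hab
      rw [hL, List.mem_filter] at hb
      simp only [decide_eq_true_eq] at hb
      exact hb.2 ha
  have h2 : 3 ∣ L.length := by
    have h3 := h1.length_eq
    rw [List.length_append, length_flat, List.length_range] at h3
    unfold nv at h3
    omega
  refine ⟨?_, h2⟩
  unfold IsPart bpart
  rw [List.flatMap_append, chunk3_flat _ h2]
  exact h1

/-! ### Values -/

theorem totD_append (D : ℕ → ℕ → ℝ) (S S' : List (ℕ × ℕ × ℕ)) :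
    totD D (S ++ S') = totD D S + totD D S' := by
  unfold totD; simp

theorem chunk3_val {T : List (ℕ × ℕ × ℕ)} {D : ℕ → ℕ → ℝ} {d0 : ℝ} {w : ℕ → ℝ}
    (hG : Good T D d0 w) : ∀ l : List ℕ, l.Nodup → (∀ v ∈ l, v < nv T ∧ v % 12 < 3) →
    3 ∣ l.length → (l.length : ℝ) * d0 ≤ totD D (chunk3 l)
  | [], _, _, _ => by simp [chunk3, totD]
  | [a], _, _, h => by simp at h
  | [a, b], _, _, h => by simp at h
  | a :: b :: c :: l, hn, hv, h => by
    have h1 : 3 ∣ l.length := by
      simp only [List.length_cons] at h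
      omega
    simp only [List.nodup_cons, List.mem_cons, not_or] at hn
    obtain ⟨⟨hab, hac, _⟩, ⟨hbc, _⟩, _, hl⟩ := hn
    have ih := chunk3_val hG l hl (fun v hv' => hv v (by simp [hv'])) h1
    have ha := hv a (by simp)
    have hb := hv b (by simp)
    have hc := hv c (by simp)
    have e1 := hG.free a b ha.1 hb.1 hab ha.2 hb.2
    have e2 := hG.free b c hb.1 hc.1 hbc hb.2 hc.2
    have e3 := hG.free a c ha.1 hc.1 hac ha.2 hc.2
    have e4 : totD D (chunk3 (a :: b :: c :: l)) = perD D (a, b, c) + totD D (chunk3 l) := by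
      simp [totD, chunk3]
    rw [e4]
    simp only [List.length_cons]
    push_cast
    unfold perD
    simp only
    linarith

theorem edge {T : List (ℕ × ℕ × ℕ)} {D : ℕ → ℕ → ℝ} {d0 : ℝ} {w : ℕ → ℝ}
    (hG : Good T D d0 w) {i : ℕ} (hi : i < T.length) (b k : ℕ) (hb : b < 9) (hk : k < 12)
    (hk' : tgt b k ≠ k) : ∀ u, (u = if tgt b k < 3 then 12 * rep T (tgt b k) i + tgt b k
      else 12 * i + tgt b k) → d0 + w b ≤ D u (12 * i + k) ∧ d0 + w b ≤ D (12 * i + k) u := by
  intro u hu
  have h1 := fb_eval T b i k hk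
  rw [if_neg hk', ← hu] at h1
  have h2 : fb T b (12 * i + k) ≠ 12 * i + k := by
    rw [Ne, fb_eq_iff]
    have : (12 * i + k) % 12 = k := by omega
    rw [this]
    exact hk'
  have := hG.lower b (12 * i + k) hb (by unfold nv; omega) h2
  rwa [h1] at this

theorem gad_val {T M : List (ℕ × ℕ × ℕ)} {D : ℕ → ℕ → ℝ} {d0 ws wt wr wq : ℝ}
    (hG : Good T D d0 (wf ws wt wr wq)) {i : ℕ} (hi : i < T.length) :
    (((gad T M i).flatMap tl).length : ℝ) * d0 + (3 * wt + 6 * wr) +
      (if T.getD i (0, 0, 0) ∈ M then 3 * wq - 6 * (wr - ws) else 0) ≤ totD D (gad T M i) := by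
  have a1 := edge hG hi 1 3 (by norm_num) (by norm_num) (by decide) (ev T 0 i) rfl
  have a2 := edge hG hi 1 6 (by norm_num) (by norm_num) (by decide) (ev T 1 i) rfl
  have a3 := edge hG hi 1 9 (by norm_num) (by norm_num) (by decide) (ev T 2 i) rfl
  have b1 := edge hG hi 2 4 (by norm_num) (by norm_num) (by decide) (ev T 0 i) rfl
  have b2 := edge hG hi 2 7 (by norm_num) (by norm_num) (by decide) (ev T 1 i) rfl
  have b3 := edge hG hi 2 10 (by norm_num) (by norm_num) (by decide) (ev T 2 i) rfl
  have c1 := edge hG hi 3 4 (by norm_num) (by norm_num) (by decide) (12 * i + 3) rfl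
  have c2 := edge hG hi 3 7 (by norm_num) (by norm_num) (by decide) (12 * i + 6) rfl
  have c3 := edge hG hi 3 10 (by norm_num) (by norm_num) (by decide) (12 * i + 9) rfl
  have r1 := edge hG hi 4 5 (by norm_num) (by norm_num) (by decide) (12 * i + 3) rfl
  have r2 := edge hG hi 4 8 (by norm_num) (by norm_num) (by decide) (12 * i + 6) rfl
  have r3 := edge hG hi 4 11 (by norm_num) (by norm_num) (by decide) (12 * i + 9) rfl
  have s1 := edge hG hi 5 5 (by norm_num) (by norm_num) (by decide) (12 * i + 4) rfl
  have s2 := edge hG hi 5 8 (by norm_num) (by norm_num) (by decide) (12 * i + 7) rfl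
  have s3 := edge hG hi 5 11 (by norm_num) (by norm_num) (by decide) (12 * i + 10) rfl
  have q1 := edge hG hi 6 8 (by norm_num) (by norm_num) (by decide) (12 * i + 5) rfl
  have q2 := edge hG hi 7 11 (by norm_num) (by norm_num) (by decide) (12 * i + 8) rfl
  have q3 := edge hG hi 8 11 (by norm_num) (by norm_num) (by decide) (12 * i + 5) rfl
  norm_num [wf] at a1 a2 a3 b1 b2 b3 c1 c2 c3 r1 r2 r3 s1 s2 s3 q1 q2 q3
  rw [length_flat]
  unfold gad
  by_cases h : T.getD i (0, 0, 0) ∈ M
  · rw [if_pos h, if_pos h]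
    simp only [totD, perD, List.map_cons, List.map_nil, List.sum_cons, List.sum_nil,
      List.length_cons, List.length_nil]
    push_cast
    linarith [a1.1, a2.1, a3.1, b1.1, b2.1, b3.1, c1.1, c2.1, c3.1, q1.1, q2.1, q3.1]
  · rw [if_neg h, if_neg h]
    simp only [totD, perD, List.map_cons, List.map_nil, List.sum_cons, List.sum_nil,
      List.length_cons, List.length_nil]
    push_cast
    linarith [c1.1, c2.1, c3.1, r1.1, r2.1, r3.1, s1.1, s2.1, s3.1]

theorem stmtL : StmtL := by
  intro T D d0 ws wt wr wq hT hG hW _ _ M hMT hM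
  obtain ⟨h1, h2⟩ := bpart_perm hT hM
  refine ⟨bpart T M, h1, ?_⟩
  -- the gadgets
  have h3 : ∀ m ≤ T.length, ((((List.range m).flatMap (gad T M)).flatMap tl).length : ℝ) * d0 +
      (3 * wt + 6 * wr) * m + (3 * wq - 6 * (wr - ws)) *
        ((List.range m).filter (fun i => decide (T.getD i (0, 0, 0) ∈ M))).length ≤
      totD D ((List.range m).flatMap (gad T M)) := by
    intro m
    induction m with
    | zero => intro _; simp [totD]
    | succ m ih =>
      intro hm
      have e1 := ih (by omega)
      have e2 := gad_val (M := M) hG (i := m) (by omega)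
      rw [List.range_succ, List.flatMap_append, List.flatMap_append, totD_append,
        List.length_append, List.filter_append, List.length_append]
      simp only [List.flatMap_cons, List.flatMap_nil, List.append_nil] at e2 ⊢
      by_cases h : T.getD m (0, 0, 0) ∈ M
      · rw [if_pos h] at e2
        have e3 : (List.filter (fun i => decide (T.getD i (0, 0, 0) ∈ M)) [m]).length = 1 := by
          rw [List.filter_cons_of_pos (by simpa using h)]
          rfl
        rw [e3]
        push_cast
        linarith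
      · rw [if_neg h] at e2
        have e3 : (List.filter (fun i => decide (T.getD i (0, 0, 0) ∈ M)) [m]).length = 0 := by
          rw [List.filter_cons_of_neg (by simpa using h)]
          rfl
        rw [e3]
        push_cast
        linarith
  have h4 := h3 T.length le_rfl
  have h5 : ((((List.range (nv T)).filter
      (fun v => decide (v ∉ (gads T M).flatMap tl))).length : ℕ) : ℝ) * d0 ≤
      totD D (chunk3 ((List.range (nv T)).filter
        (fun v => decide (v ∉ (gads T M).flatMap tl)))) := by
    apply chunk3_val hG _ (List.nodup_range.filter _) _ h2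
    intro v hv
    rw [List.mem_filter, List.mem_range, decide_eq_true_eq] at hv
    exact ⟨hv.1, left_free hv.1 hv.2⟩
  have h6 : (nv T : ℝ) = (((gads T M).flatMap tl).length : ℝ) + (((List.range (nv T)).filter
      (fun v => decide (v ∉ (gads T M).flatMap tl))).length : ℕ) := by
    have h7 := List.Perm.length_eq h1
    unfold bpart at h7
    rw [List.flatMap_append, chunk3_flat _ h2, List.length_append, List.length_range] at h7
    exact_mod_cast h7.symm
  have h8 : (M.length : ℝ) ≤
      ((List.range T.length).filter (fun i => decide (T.getD i (0, 0, 0) ∈ M))).length := by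
    have hMn : M.Nodup := hM.imp (fun h h' => h.1 (by rw [h']))
    have hsub : M ⊆ ((List.range T.length).filter
        (fun i => decide (T.getD i (0, 0, 0) ∈ M))).map (fun i => T.getD i (0, 0, 0)) := by
      intro t ht
      obtain ⟨i, hi, he⟩ := List.mem_iff_getElem.1 (hMT ht)
      have he' : T.getD i (0, 0, 0) = t := by rw [List.getD_eq_getElem _ _ hi, he]
      rw [List.mem_map]
      refine ⟨i, ?_, he'⟩
      rw [List.mem_filter, List.mem_range, decide_eq_true_eq, he']
      exact ⟨hi, ht⟩
    have := (hMn.subperm hsub).length_le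
    rw [List.length_map] at this
    exact_mod_cast this
  have hg : 0 ≤ 3 * wq - 6 * (wr - ws) := by
    obtain ⟨_, k1, k2, k3, k4, k5⟩ := hW
    linarith
  have h9 := mul_le_mul_of_nonneg_left h8 hg
  have h10 : totD D (bpart T M) = totD D (gads T M) + totD D (chunk3 ((List.range (nv T)).filter
      (fun v => decide (v ∉ (gads T M).flatMap tl)))) := by
    unfold bpart; rw [totD_append]
  change _ ≤ totD D (gads T M) at h4
  rw [h10, h6]
  change (((gads T M).flatMap tl).length : ℝ) * d0 + _ + _ ≤ _ at h4
  linarith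

end Pool.Agent.H569R2.Tri
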