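import Pool.Agent.H569R2.Tri.Low
import Pool.Agent.H569R2.Approx

/-!
# The AP-reduction from Max 3DM-B to Max-3DM under `L_p`
-/

namespace Pool.Agent.H569R2.Tri

open Pool.Agent.NPC
open scoped ENNReal

/-! ### Polynomial-time functions -/

section
variable {α β γ δ ε : Type} [TEnc α] [TEnc β] [TEnc γ] [TEnc δ] [TEnc ε]

theorem PolyFun.toPoly {f : α → β} (h : PolyFun f) : Poly f := by
  obtain ⟨F, hF, hf⟩ := h
  obtain ⟨c, p, hc⟩ : PC (fun x : List Bool => x) (fun x : List Bool => x) F :=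
    Pool.Agent.H642R2.TMSim.polyTime_toPC hF
  refine ⟨c, p, fun a => ?_⟩
  have := hc (bits a)
  rwa [hf a] at this

theorem polyFun_of_poly [TDec α] {f : α → β} (h : Poly f) : PolyFun f := by
  have h1 : Poly (fun x : List Bool => (unbits α x).map f) :=
    Poly.optMap (f := fun _ a => f a) poly_unbits (h.comp (Poly.snd Poly.id))
  refine ⟨_, polyTime_opt h1, fun a => ?_⟩
  rw [unbits_bits]
  rfl

/-- Functions on coded strings are polynomial-time on raw strings. -/
theorem polyTime_of_poly_str {H : List Bool → List Bool} (h : Poly H) : PolyTime H := by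
  have h2 : PC (fun x : List Bool => x) (bits : List Bool → List Bool) H :=
    PC.comp (g := H) (f := fun x => x) h PC.rawIn
  exact PC.toPolyTime (PC.comp (g := fun x : List Bool => x) (f := H) pc_raw h2)

theorem PolyFun.comp {g : β → γ} {f : α → β} (hg : PolyFun g) (hf : PolyFun f) :
    PolyFun (fun a => g (f a)) := by
  obtain ⟨F, hF, hf⟩ := hf
  obtain ⟨G, hG, hg⟩ := hg
  refine ⟨fun x => G (F x), polyTime_of_poly_str ((poly_of_polyTime hG).comp (poly_of_polyTime hF)),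
    fun a => ?_⟩
  simp only [hf, hg]

/-- The two parts of the code of a pair. -/
def splitS (x : List Bool) : List Bool × List Bool :=
  (((parse x).getD T.nil).hd.enc, ((parse x).getD T.nil).tl.enc)

theorem splitS_bits (a : α) (b : β) : splitS (bits (a, b)) = (bits a, bits b) := by
  unfold splitS
  have : parse (bits (a, b)) = some (T.node (toT a) (toT b)) := parse_enc _
  rw [this]
  rfl

theorem bits_pair (a : α) (b : β) : bits (a, b) = true :: (bits a ++ bits b) := rfl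

theorem poly_splitS : Poly splitS := by
  have h1 : Poly (fun x : List Bool => (parse x).getD T.nil) :=
    Poly.optGetD poly_parse (NPC.Poly.const _)
  exact Poly.pair ((poly_bits (α := T)).comp (Poly.hd h1)) ((poly_bits (α := T)).comp (Poly.tl h1))

/-- The back translation of a composed reduction. -/
theorem PolyFun.back {f1 : α → β} {g2 : β × γ → δ} {g1 : α × δ → ε} (h1 : PolyFun f1)
    (h2 : PolyFun g2) (h3 : PolyFun g1) : PolyFun (fun q : α × γ => g1 (q.1, g2 (f1 q.1, q.2))) := by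
  obtain ⟨F1, hF1, e1⟩ := h1
  obtain ⟨G2, hG2, e2⟩ := h2
  obtain ⟨G1, hG1, e3⟩ := h3
  refine ⟨fun x => G1 (true :: ((splitS x).1 ++ G2 (true :: (F1 (splitS x).1 ++ (splitS x).2)))),
    polyTime_of_poly_str ?_, ?_⟩
  · have s1 : Poly (fun x : List Bool => (splitS x).1) := Poly.fst poly_splitS
    have s2 : Poly (fun x : List Bool => (splitS x).2) := Poly.snd poly_splitS
    exact (poly_of_polyTime hG1).comp (Poly.cons (NPC.Poly.const true) (Poly.append s1
      ((poly_of_polyTime hG2).comp (Poly.cons (NPC.Poly.const true) (Poly.append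
        ((poly_of_polyTime hF1).comp s1) s2)))))
  · rintro ⟨a, c⟩
    simp only [splitS_bits]
    rw [e1, ← bits_pair, e2, ← bits_pair, e3]

/-- Pairing with the identity. -/
theorem PolyFun.idPair {f : α → β} (hf : PolyFun f) : PolyFun (fun a => (a, f a)) := by
  obtain ⟨F, hF, e⟩ := hf
  refine ⟨fun x => true :: (x ++ F x), polyTime_of_poly_str (Poly.cons (NPC.Poly.const true)
    (Poly.append Poly.id (poly_of_polyTime hF))), fun a => ?_⟩
  simp only [e, bits_pair]

end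

/-- Performance ratios may be weakened when the values are nonnegative. -/
theorem OptProblem.Within.mono {P : OptProblem} (hP : ∀ x y, 0 ≤ P.val x y) {x : P.Inst}
    {y : P.Sol} {r r' : ℝ} (h : P.Within x y r) (hr : r ≤ r') : P.Within x y r' := by
  refine ⟨h.1, fun y' hy' => ?_⟩
  have h1 := h.2 y' hy'
  split_ifs at h1 ⊢
  · exact h1.trans (mul_le_mul_of_nonneg_right hr (hP x y))
  · exact h1.trans (mul_le_mul_of_nonneg_right hr (hP x y'))

/-- AP-reductions compose. -/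
theorem APReducible.trans {P Q R : OptProblem} (h1 : APReducible P Q) (h2 : APReducible Q R)
    (hQ : ∀ x y, 0 ≤ Q.val x y) : APReducible P R := by
  obtain ⟨f1, g1, α1, hα1, H1⟩ := h1
  obtain ⟨f2, g2, α2, hα2, H2⟩ := h2
  obtain ⟨β, hβ⟩ := exists_rat_gt α2
  have hβ1 : (1 : ℝ) < β := lt_of_le_of_lt hα2 hβ
  have hβ1' : (1 : ℚ) < β := by exact_mod_cast hβ1
  refine ⟨fun r x => f2 r (f1 (1 + β * (r - 1)) x),
    fun r q => g1 (1 + β * (r - 1)) (q.1, g2 r (f1 (1 + β * (r - 1)) q.1, q.2)), α1 * β,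
    by nlinarith, fun r hr => ?_⟩
  have hs : 1 < 1 + β * (r - 1) := by nlinarith
  obtain ⟨p1, p2, k1⟩ := H1 (1 + β * (r - 1)) hs
  obtain ⟨p3, p4, k2⟩ := H2 r hr
  refine ⟨p3.comp p1, ?_, fun x hx => ?_⟩
  · exact PolyFun.back p1 p4 p2
  · obtain ⟨v1, s1, w1⟩ := k1 x hx
    obtain ⟨v2, s2, w2⟩ := k2 _ v1
    refine ⟨v2, fun hy => s2 (s1 hy), fun z hz => ?_⟩
    obtain ⟨u1, u2⟩ := w2 z hz
    obtain ⟨u3, u4⟩ := w1 _ u1
    refine ⟨u3, fun hw => ?_⟩
    have e1 := u2 hw
    have hr' : (1 : ℝ) < r := by exact_mod_cast hr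
    have e2 : Q.Within (f1 (1 + β * (r - 1)) x) (g2 r (f1 (1 + β * (r - 1)) x, z))
        ((1 + β * (r - 1) : ℚ) : ℝ) := by
      refine e1.mono hQ ?_
      push_cast
      nlinarith
    have e3 := u4 e2
    have e4 : 1 + α1 * (((1 + β * (r - 1) : ℚ) : ℝ) - 1) = 1 + α1 * β * ((r : ℝ) - 1) := by
      push_cast; ring
    rw [e4] at e3
    exact e3

/-- `APX`-hardness passes along AP-reductions. -/
theorem APXHard.of_reducible {P Q : OptProblem} (hP : P.APXHard) (h : APReducible P Q)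
    (hn : ∀ x y, 0 ≤ P.val x y) : Q.APXHard := fun R hR => (hP R hR).trans h hn

/-- Polynomial-time approximation schemes. -/
def OptProblem.HasPTAS (P : OptProblem) : Prop := ∀ r : ℚ, 1 < r → ∃ A : P.Inst → P.Sol, PolyFun A ∧
  ∀ x, P.valid x → (∃ y, P.feas x y) → P.Within x (A x) r

theorem APReducible.ptas {P Q : OptProblem} (h : APReducible P Q) (hn : ∀ x y, 0 ≤ P.val x y)
    (hQ : Q.HasPTAS) : P.HasPTAS := by
  obtain ⟨f, g, α, hα, H⟩ := h
  intro r hr
  obtain ⟨β, hβ⟩ := exists_rat_gt α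
  have hβ1 : (1 : ℝ) < β := lt_of_le_of_lt hα hβ
  have hβ1' : (1 : ℚ) < β := by exact_mod_cast hβ1
  have hs : 1 < 1 + (r - 1) / β := by
    have : 0 < (r - 1) / β := div_pos (by linarith) (by linarith)
    linarith
  obtain ⟨A, hA, hA2⟩ := hQ (1 + (r - 1) / β) hs
  obtain ⟨p1, p2, k⟩ := H (1 + (r - 1) / β) hs
  refine ⟨fun x => g (1 + (r - 1) / β) (x, A (f (1 + (r - 1) / β) x)),
    p2.comp (PolyFun.idPair (hA.comp p1)), fun x hx hy => ?_⟩
  obtain ⟨v1, s1, w1⟩ := k x hx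
  have e1 := hA2 _ v1 (s1 hy)
  have e2 := (w1 _ e1.1).2 e1
  refine e2.mono hn ?_
  have hr' : (1 : ℝ) < r := by exact_mod_cast hr
  push_cast
  have e3 : α * (1 + ((r : ℝ) - 1) / β - 1) = (r - 1) * (α / β) := by
    field_simp
    ring
  rw [e3]
  have e4 : α / β ≤ 1 := by rw [div_le_one (by linarith)]; exact hβ.le
  nlinarith

theorem max3DM_nonneg (B : ℕ) : ∀ x y, 0 ≤ (Max3DM B).val x y := fun _ y =>
  Nat.cast_nonneg (α := ℝ) (List.length y)

/-- Summary of the construction. -/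
theorem exists_const (hH : StmtH) (hI : StmtI) (p : ℝ≥0∞) (hp1 : 1 ≤ p) : ∃ K : ℝ, 0 ≤ K ∧
    ∀ T : List (ℕ × ℕ × ℕ), ∃ d0 ws wt wr wq : ℝ, Wts d0 ws wt wr wq ∧
      Good T (fun u v => lpDist p ((red p T).getD u []) ((red p T).getD v [])) d0
        (wf ws wt wr wq) ∧ 15 * d0 + (3 * wt + 6 * wr) ≤ K * (3 * wq - 6 * (wr - ws)) := by
  by_cases hp : p = ∞
  · subst hp
    refine ⟨121, by norm_num, fun T => ⟨40, 12, 14, 14, 6, wts_inf, ?_, by norm_num⟩⟩
    have e : red ∞ T = redI T := by unfold red; rw [if_pos rfl]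
    rw [e]
    exact good_inf hI T
  · obtain ⟨ha, ha1⟩ := exp_mem hp1 hp
    set a := 1 / p.toReal with hadef
    have h1 := wts_fin a 1 ha ha1 one_pos
    have hg : 0 < 3 * ((46:ℝ) ^ a - (43:ℝ) ^ a) - 6 * (((50:ℝ) ^ a - (43:ℝ) ^ a) -
        ((49:ℝ) ^ a - (43:ℝ) ^ a)) := by
      obtain ⟨_, k1, k2, k3, k4, k5⟩ := h1
      linarith
    have hb : 0 ≤ 15 * (43:ℝ) ^ a + (3 * ((50:ℝ) ^ a - (43:ℝ) ^ a) +
        6 * ((50:ℝ) ^ a - (43:ℝ) ^ a)) := by
      obtain ⟨k0, k1, k2, k3, k4, k5⟩ := h1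
      linarith
    refine ⟨(15 * (43:ℝ) ^ a + (3 * ((50:ℝ) ^ a - (43:ℝ) ^ a) + 6 * ((50:ℝ) ^ a - (43:ℝ) ^ a))) /
      (3 * ((46:ℝ) ^ a - (43:ℝ) ^ a) - 6 * (((50:ℝ) ^ a - (43:ℝ) ^ a) -
        ((49:ℝ) ^ a - (43:ℝ) ^ a))), div_nonneg hb hg.le, fun T => ?_⟩
    refine ⟨_, _, _, _, _, wts_fin a (cfin p T) ha ha1 (cfin_pos p T), ?_, ?_⟩
    · have e : red p T = redH T := by unfold red; rw [if_neg hp]
      rw [e]
      exact good_fin hH hp1 hp T
    · have e : ∀ x y c : ℝ, 0 < y → c * x ≤ x / y * (c * y) := by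
        intro x y c hy
        apply le_of_eq
        field_simp
      have e' := e (15 * (43:ℝ) ^ a + (3 * ((50:ℝ) ^ a - (43:ℝ) ^ a) +
        6 * ((50:ℝ) ^ a - (43:ℝ) ^ a))) _ (cfin p T) hg
      refine le_trans (le_of_eq ?_) (e'.trans (le_of_eq ?_))
      · ring
      · congr 1
        ring

theorem red_valid (hH : StmtH) (hI : StmtI) (p : ℝ≥0∞) (T : List (ℕ × ℕ × ℕ)) :
    (MaxTri p).valid (red p T) ∧ (red p T).length = nv T := by
  unfold red
  have h3 : nv T = 3 * (4 * T.length + 1) := by unfold nv; ring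
  split_ifs
  · obtain ⟨s, hs, hl⟩ := (hI T (fb_lt T)).2
    have hlen : (redI T).length = nv T := by simp [redI]
    exact ⟨⟨s, 4 * T.length + 1, hs, by omega, by rw [hlen, h3], hl, nodup_redI hI T⟩, hlen⟩
  · obtain ⟨s, hs, hl⟩ := (hH T (fb_lt T)).2
    have hlen : (redH T).length = nv T := by simp [redH]
    exact ⟨⟨s, 4 * T.length + 1, hs, by omega, by rw [hlen, h3], hl, nodup_redH hH T⟩, hlen⟩

theorem poly_red (hPoly : StmtP) (p : ℝ≥0∞) : Poly (red p) := by
  by_cases hp : p = ∞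
  · exact Poly.congr hPoly.2.1 fun T => by unfold red; rw [if_pos hp]
  · exact Poly.congr hPoly.1 fun T => by unfold red; rw [if_neg hp]

/-- The key estimate. -/
theorem ap_core (B : ℕ) (K : ℝ) (hK : 0 ≤ K) (T : List (ℕ × ℕ × ℕ)) (hTn : T.Nodup)
    (hTB : ∀ a : ℕ, T.countP (fun t => decide (t.1 = a)) ≤ B ∧
      T.countP (fun t => decide (t.2.1 = a)) ≤ B ∧ T.countP (fun t => decide (t.2.2 = a)) ≤ B)
    (D : ℕ → ℕ → ℝ) (d0 ws wt wr wq : ℝ) (hW : Wts d0 ws wt wr wq)
    (hG : Good T D d0 (wf ws wt wr wq))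
    (hK2 : 15 * d0 + (3 * wt + 6 * wr) ≤ K * (3 * wq - 6 * (wr - ws))) (r : ℝ) (hr' : 1 < r)
    (S : List (ℕ × ℕ × ℕ)) (hS' : (S.flatMap tl).Perm (List.range (nv T)))
    (hw : ∀ S1 : List (ℕ × ℕ × ℕ), (S1.flatMap tl).Perm (List.range (nv T)) →
      totD D S1 ≤ r * totD D S) (M : List (ℕ × ℕ × ℕ)) (hMT : M ⊆ T)
    (hM : M.Pairwise (fun s t => s.1 ≠ t.1 ∧ s.2.1 ≠ t.2.1 ∧ s.2.2 ≠ t.2.2)) :
    (M.length : ℝ) ≤ (1 + (1 + 3 * (B : ℝ) * K) * (r - 1)) * ((back (T, S)).length : ℝ) := by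
  have hrep1 : ∀ c i j, i < T.length → j < T.length → (rep T c i = rep T c j ↔
    coord c (T.getD i (0, 0, 0)) = coord c (T.getD j (0, 0, 0))) :=
    fun c i j => rep_eq_iff T c i j
  have hrep2 : ∀ c i, i < T.length → rep T c i < T.length := fun c i => rep_lt T c i
  obtain ⟨S1, hS1, hval1⟩ := stmtL T _ d0 ws wt wr wq hTn hG hW hrep1 hrep2 M hMT hM
  have hval := stmtU T _ d0 ws wt wr wq hG hW hrep2 S hS'
  have hratio := hw S1 hS1
  have hg : 0 < 3 * wq - 6 * (wr - ws) := by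
    obtain ⟨_, k1, k2, k3, k4, k5⟩ := hW
    linarith
  have hbase : 0 ≤ 3 * wt + 6 * wr := by
    obtain ⟨_, k1, k2, k3, k4, k5⟩ := hW
    linarith
  have hd0 : 0 < d0 := hW.hd0
  have hY1 : ((sel T S).length : ℝ) ≤ ((back (T, S)).length : ℝ) := by
    have h1 : (ext T S).length = (sel T S).length := by unfold ext; simp
    unfold back
    split_ifs with h
    · rw [h1]
    · simp only at h ⊢
      rw [← h1]
      exact_mod_cast (by omega)
  have hY2 : ((greedy T).length : ℝ) ≤ ((back (T, S)).length : ℝ) := by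
    unfold back
    split_ifs with h
    · exact_mod_cast h
    · exact le_rfl
  by_cases hm0 : T.length = 0
  · have hT0 : T = [] := List.length_eq_zero_iff.1 hm0
    have hM0 : M = [] := by
      rw [hT0] at hMT
      exact List.subset_nil.1 hMT
    rw [hM0]
    have : (0 : ℝ) ≤ (1 + (1 + 3 * (B : ℝ) * K) * (r - 1)) := by
      have : (0 : ℝ) ≤ (1 + 3 * (B : ℝ) * K) * (r - 1) :=
        mul_nonneg (by positivity) (by linarith)
      linarith
    simp only [List.length_nil, Nat.cast_zero]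
    positivity
  · have hm1 : (1 : ℝ) ≤ T.length := by exact_mod_cast Nat.one_le_iff_ne_zero.2 hm0
    have hlenT : (T.length : ℝ) ≤ 3 * B * (greedy T).length := by
      exact_mod_cast greedy_length B T hTB
    -- κ
    have hκ : (nv T : ℝ) * d0 + (3 * wt + 6 * wr) * T.length ≤
        K * (3 * wq - 6 * (wr - ws)) * T.length := by
      rw [nv_cast]
      have e1 : (12 * (T.length : ℝ) + 3) * d0 ≤ 15 * d0 * T.length := by nlinarith
      have e2 := mul_le_mul_of_nonneg_right hK2 (by positivity : (0:ℝ) ≤ T.length)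
      nlinarith
    have hκ2 : K * (3 * wq - 6 * (wr - ws)) * T.length ≤
        (3 * wq - 6 * (wr - ws)) * (3 * B * K * ((back (T, S)).length : ℝ)) := by
      have e3 : K * (3 * wq - 6 * (wr - ws)) * T.length ≤
          K * (3 * wq - 6 * (wr - ws)) * (3 * B * (greedy T).length) :=
        mul_le_mul_of_nonneg_left hlenT (by positivity)
      have e4 : K * (3 * wq - 6 * (wr - ws)) * (3 * B * (greedy T).length) ≤
          K * (3 * wq - 6 * (wr - ws)) * (3 * B * ((back (T, S)).length : ℝ)) :=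
        mul_le_mul_of_nonneg_left (mul_le_mul_of_nonneg_left hY2 (by positivity))
          (by positivity)
      refine (e3.trans e4).trans (le_of_eq ?_)
      ring
    set g := 3 * wq - 6 * (wr - ws) with hgdef
    set Y := ((back (T, S)).length : ℝ) with hYdef
    set κ := (nv T : ℝ) * d0 + (3 * wt + 6 * wr) * T.length with hκdef
    have f1 : κ + g * (M.length : ℝ) ≤ r * (κ + g * (sel T S).length) :=
      (hval1.trans hratio).trans (mul_le_mul_of_nonneg_left hval (by linarith))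
    have f2 : g * ((sel T S).length : ℝ) ≤ g * Y := mul_le_mul_of_nonneg_left hY1 hg.le
    have f3 : (r - 1) * κ ≤ (r - 1) * (g * (3 * B * K * Y)) :=
      mul_le_mul_of_nonneg_left (hκ.trans hκ2) (by linarith)
    have f4 : r * (g * (sel T S).length) ≤ r * (g * Y) :=
      mul_le_mul_of_nonneg_left f2 (by linarith)
    have f5 : g * (M.length : ℝ) ≤ g * ((1 + (1 + 3 * (B : ℝ) * K) * (r - 1)) * Y) := by
      have : g * ((1 + (1 + 3 * (B : ℝ) * K) * (r - 1)) * Y) =
        r * (g * Y) + (r - 1) * (g * (3 * B * K * Y)) := by ring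
      rw [this]
      nlinarith
    exact le_of_mul_le_mul_left f5 hg

theorem exists_part (hH : StmtH) (hI : StmtI) (p : ℝ≥0∞) (hp1 : 1 ≤ p) (T : List (ℕ × ℕ × ℕ))
    (hTn : T.Nodup) : ∃ S : List (ℕ × ℕ × ℕ), (S.flatMap tl).Perm (List.range (nv T)) := by
  obtain ⟨K, hK, hC⟩ := exists_const hH hI p hp1
  obtain ⟨d0, ws, wt, wr, wq, hW, hG, hK2⟩ := hC T
  obtain ⟨S, hS, _⟩ := stmtL T _ d0 ws wt wr wq hTn hG hW (fun c i j => rep_eq_iff T c i j)
    (fun c i => rep_lt T c i) [] (by simp) List.Pairwise.nil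
  exact ⟨S, hS⟩

theorem ap_main (hH : StmtH) (hI : StmtI) (hPoly : StmtP) (p : ℝ≥0∞) (hp1 : 1 ≤ p) (B : ℕ) :
    APReducible (Max3DM B) (MaxTri p) := by
  obtain ⟨K, hK, hC⟩ := exists_const hH hI p hp1
  refine ⟨fun _ T => red p T, fun _ q => back q, 1 + 3 * B * K, ?_, fun r hr =>
    ⟨polyFun_of_poly (α := List (ℕ × ℕ × ℕ)) (β := List (List ℚ)) (poly_red hPoly p),
    polyFun_of_poly (α := List (ℕ × ℕ × ℕ) × List (ℕ × ℕ × ℕ)) (β := List (ℕ × ℕ × ℕ))
      hPoly.2.2, ?_⟩⟩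
  · have : (0 : ℝ) ≤ 3 * B * K := by positivity
    linarith
  · intro (T : List (ℕ × ℕ × ℕ)) hT
    obtain ⟨hv, hlen⟩ := red_valid hH hI p T
    obtain ⟨d0, ws, wt, wr, wq, hW, hG, hK2⟩ := hC T
    refine ⟨hv, fun _ => ?_, ?_⟩
    · obtain ⟨S, hS⟩ := exists_part hH hI p hp1 T hT.1
      exact ⟨S, by change (S.flatMap tl).Perm (List.range (red p T).length); rw [hlen]; exact hS⟩
    · intro (S : List (ℕ × ℕ × ℕ)) hS
      have hS' : (S.flatMap tl).Perm (List.range (nv T)) := by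
        have h : (S.flatMap tl).Perm (List.range (red p T).length) := hS
        rwa [hlen] at h
      have hback : (Max3DM B).feas T (back (T, S)) := by
        change back (T, S) ⊆ T ∧ _
        unfold back
        split_ifs
        · exact ext_feas (T := T) (S := S) hS'
        · exact ⟨greedy_subset T, greedy_pairwise T⟩
      refine ⟨hback, fun hw => ⟨hback, ?_⟩⟩
      intro (M : List (ℕ × ℕ × ℕ)) hM
      rw [if_pos (show (Max3DM B).isMax = true from rfl)]
      refine ap_core B K hK T hT.1 hT.2 _ d0 ws wt wr wq hW hG hK2 r (by exact_mod_cast hr) S hS'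
        ?_ M hM.1 hM.2
      intro S1 hS1
      have hratio := hw.2 S1 (by
        change (S1.flatMap tl).Perm (List.range (red p T).length); rw [hlen]; exact hS1)
      rw [if_pos (show (MaxTri p).isMax = true from rfl)] at hratio
      exact hratio

end Pool.Agent.H569R2.Tri
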