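import Pool.Agent.H569R2.Tri.Comb

/-!
# Partitions into triples: classes
-/

namespace Pool.Agent.H569R2.Tri

/-- `S` is a partition of `0, …, n - 1` into triples. -/
def IsPart (n : ℕ) (S : List (ℕ × ℕ × ℕ)) : Prop := (S.flatMap tl).Perm (List.range n)

theorem IsPart.nodup {n : ℕ} {S : List (ℕ × ℕ × ℕ)} (h : IsPart n S) : (S.flatMap tl).Nodup :=
  h.nodup_iff.2 List.nodup_range

theorem IsPart.mem {n : ℕ} {S : List (ℕ × ℕ × ℕ)} (h : IsPart n S) {v : ℕ} :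
    v < n ↔ ∃ t ∈ S, v ∈ tl t := by
  rw [← List.mem_range, ← List.Perm.mem_iff h, List.mem_flatMap]

theorem uniq_aux : ∀ (S : List (ℕ × ℕ × ℕ)), (S.flatMap tl).Nodup → ∀ {v : ℕ} {s t : ℕ × ℕ × ℕ},
    s ∈ S → t ∈ S → v ∈ tl s → v ∈ tl t → s = t := by
  intro S
  induction S with
  | nil => intro _ v s t hs; simp at hs
  | cons a S ih =>
    intro h v s t hs ht hvs hvt
    rw [List.flatMap_cons, List.nodup_append] at h
    obtain ⟨_, h2, h3⟩ := h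
    rcases List.mem_cons.1 hs with hs' | hs' <;> rcases List.mem_cons.1 ht with ht' | ht'
    · rw [hs', ht']
    · subst hs'
      exact absurd rfl (h3 v hvs v (List.mem_flatMap.2 ⟨t, ht', hvt⟩))
    · subst ht'
      exact absurd rfl (h3 v hvt v (List.mem_flatMap.2 ⟨s, hs', hvs⟩))
    · exact ih h2 hs' ht' hvs hvt

theorem IsPart.uniq {n : ℕ} {S : List (ℕ × ℕ × ℕ)} (h : IsPart n S) {v : ℕ} {s t : ℕ × ℕ × ℕ}
    (hs : s ∈ S) (ht : t ∈ S) (hvs : v ∈ tl s) (hvt : v ∈ tl t) : s = t :=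
  uniq_aux S h.nodup hs ht hvs hvt

theorem IsPart.tl_nodup {n : ℕ} {S : List (ℕ × ℕ × ℕ)} (h : IsPart n S) {t : ℕ × ℕ × ℕ}
    (ht : t ∈ S) : (tl t).Nodup := by
  have h1 := h.nodup
  rw [List.nodup_flatMap] at h1
  exact h1.1 t ht

theorem mem_tl {v : ℕ} {t : ℕ × ℕ × ℕ} : v ∈ tl t ↔ v = t.1 ∨ v = t.2.1 ∨ v = t.2.2 := by
  simp [tl]

/-- the triple of a vertex -/
theorem IsPart.exists_cl {n : ℕ} {S : List (ℕ × ℕ × ℕ)} (h : IsPart n S) :
    ∃ cl : ℕ → ℕ × ℕ × ℕ, ∀ v < n, cl v ∈ S ∧ v ∈ tl (cl v) := by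
  classical
  refine ⟨fun v => if hv : v < n then (h.mem.1 hv).choose else (0, 0, 0), fun v hv => ?_⟩
  simp only [dif_pos hv]
  exact (h.mem.1 hv).choose_spec

theorem same_iff {n : ℕ} {S : List (ℕ × ℕ × ℕ)} (h : IsPart n S) {cl : ℕ → ℕ × ℕ × ℕ}
    (hcl : ∀ v < n, cl v ∈ S ∧ v ∈ tl (cl v)) {u v : ℕ} (hu : u < n) (hv : v < n) :
    same S u v = true ↔ cl u = cl v := by
  unfold same
  simp only [List.any_eq_true, Bool.and_eq_true, decide_eq_true_eq]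
  constructor
  · rintro ⟨t, ht, h1, h2⟩
    rw [h.uniq (hcl u hu).1 ht (hcl u hu).2 h1, h.uniq (hcl v hv).1 ht (hcl v hv).2 h2]
  · intro h1
    exact ⟨cl u, (hcl u hu).1, (hcl u hu).2, by rw [h1]; exact (hcl v hv).2⟩

/-- No four different vertices are in one triple. -/
theorem four {cl : ℕ → ℕ × ℕ × ℕ} {n : ℕ} (hcl : ∀ v < n, v ∈ tl (cl v))
    {a b c d : ℕ} (ha : a < n) (hb : b < n) (hc : c < n) (hd : d < n) (hab : a ≠ b) (hac : a ≠ c)
    (had : a ≠ d) (hbc : b ≠ c) (hbd : b ≠ d) (hcd : c ≠ d) :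
    ¬ (cl b = cl a ∧ cl c = cl a ∧ cl d = cl a) := by
  rintro ⟨h1, h2, h3⟩
  have ka := hcl a ha
  have kb := hcl b hb
  have kc := hcl c hc
  have kd := hcl d hd
  rw [h1] at kb
  rw [h2] at kc
  rw [h3] at kd
  rw [mem_tl] at ka kb kc kd
  omega

/-! ### The inequality for one gadget, in terms of a colouring -/

section
variable {τ : Type} [DecidableEq τ]

/-- value of one part -/
noncomputable def pv (ws wt wr : ℝ) (x a b e : τ) : ℝ :=
  (if a = x then ws else 0) + (if b = x then ws else 0) + (if b = a then wt else 0) +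
    (if e = a then wr else 0) + (if e = b then wr else 0)

/-- value of the centre -/
noncomputable def cv (wq : ℝ) (e0 e1 e2 : τ) : ℝ :=
  (if e1 = e0 then wq else 0) + (if e2 = e1 then wq else 0) + (if e2 = e0 then wq else 0)

variable {d0 ws wt wr wq : ℝ}

theorem pv_le (h : Wts d0 ws wt wr wq) (x a b e : τ) (h4 : ¬ (b = a ∧ e = a ∧ x = a)) :
    pv ws wt wr x a b e ≤ wt + 2 * wr := by
  obtain ⟨h0, h1, h2, h3, h5, h6⟩ := h
  unfold pv
  split_ifs with k1 k2 k3 k4 k5 <;> first | linarith | (exfalso; simp_all)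

/-- a part that is not full -/
theorem pv_le2 (h : Wts d0 ws wt wr wq) (x a b e : τ) (h4 : ¬ (b = a ∧ e = a ∧ x = a))
    (h7 : ¬ (e = a ∧ e = b)) : pv ws wt wr x a b e ≤ wt + 2 * wr - 2 * (wr - ws) := by
  obtain ⟨h0, h1, h2, h3, h5, h6⟩ := h
  unfold pv
  split_ifs with k1 k2 k3 k4 k5 <;> first | linarith | (exfalso; simp_all)

/-- a part that is neither full nor selected -/
theorem pv_le3 (h : Wts d0 ws wt wr wq) (x a b e : τ) (h4 : ¬ (b = a ∧ e = a ∧ x = a))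
    (h7 : ¬ (e = a ∧ e = b)) (h8 : ¬ (x = a ∧ x = b)) :
    pv ws wt wr x a b e ≤ wt + 2 * wr - 8 * (wr - ws) := by
  obtain ⟨h0, h1, h2, h3, h5, h6⟩ := h
  unfold pv
  split_ifs with k1 k2 k3 k4 k5 <;> first | linarith | (exfalso; simp_all)

/-- The inequality for one gadget. -/
theorem gadget_le (h : Wts d0 ws wt wr wq) (x0 x1 x2 a0 a1 a2 b0 b1 b2 e0 e1 e2 : τ)
    (p0 : ¬ (b0 = a0 ∧ e0 = a0 ∧ x0 = a0)) (p1 : ¬ (b1 = a1 ∧ e1 = a1 ∧ x1 = a1))
    (p2 : ¬ (b2 = a2 ∧ e2 = a2 ∧ x2 = a2))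
    (q01 : ¬ (a0 = e0 ∧ b0 = e0 ∧ e1 = e0)) (q02 : ¬ (a0 = e0 ∧ b0 = e0 ∧ e2 = e0))
    (q10 : ¬ (a1 = e1 ∧ b1 = e1 ∧ e0 = e1)) (q12 : ¬ (a1 = e1 ∧ b1 = e1 ∧ e2 = e1))
    (q20 : ¬ (a2 = e2 ∧ b2 = e2 ∧ e0 = e2)) (q21 : ¬ (a2 = e2 ∧ b2 = e2 ∧ e1 = e2)) :
    pv ws wt wr x0 a0 b0 e0 + pv ws wt wr x1 a1 b1 e1 + pv ws wt wr x2 a2 b2 e2 +
      cv wq e0 e1 e2 ≤ 3 * wt + 6 * wr + (if ((x0 = a0 ∧ x0 = b0) ∧ (x1 = a1 ∧ x1 = b1)) ∧
        (x2 = a2 ∧ x2 = b2) then 3 * wq - 6 * (wr - ws) else 0) := by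
  have A0 := pv_le h x0 a0 b0 e0 p0
  have A1 := pv_le h x1 a1 b1 e1 p1
  have A2 := pv_le h x2 a2 b2 e2 p2
  have B0 := pv_le2 h x0 a0 b0 e0 p0
  have B1 := pv_le2 h x1 a1 b1 e1 p1
  have B2 := pv_le2 h x2 a2 b2 e2 p2
  have C0 := pv_le3 h x0 a0 b0 e0 p0
  have C1 := pv_le3 h x1 a1 b1 e1 p1
  have C2 := pv_le3 h x2 a2 b2 e2 p2
  obtain ⟨h0, h1, h2, h3, h5, h6⟩ := h
  have hq : 0 ≤ wq := by linarith
  have hg : 0 ≤ (if ((x0 = a0 ∧ x0 = b0) ∧ (x1 = a1 ∧ x1 = b1)) ∧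
        (x2 = a2 ∧ x2 = b2) then 3 * wq - 6 * (wr - ws) else 0) := by
    split_ifs <;> linarith
  have hc3 : cv wq e0 e1 e2 ≤ 3 * wq := by
    unfold cv; split_ifs <;> linarith
  by_cases f0 : e0 = a0 ∧ e0 = b0
  · have n1 : ¬ e1 = e0 := fun h => q01 ⟨f0.1.symm, f0.2.symm, h⟩
    have n2 : ¬ e2 = e0 := fun h => q02 ⟨f0.1.symm, f0.2.symm, h⟩
    have hc : cv wq e0 e1 e2 ≤ wq := by
      unfold cv; rw [if_neg n1, if_neg n2]; split_ifs <;> linarith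
    by_cases f1 : e1 = a1 ∧ e1 = b1
    · have n3 : ¬ e2 = e1 := fun h => q12 ⟨f1.1.symm, f1.2.symm, h⟩
      have hc : cv wq e0 e1 e2 = 0 := by
        unfold cv; rw [if_neg n1, if_neg n2, if_neg n3]; ring
      linarith
    · by_cases f2 : e2 = a2 ∧ e2 = b2
      · have n3 : ¬ e2 = e1 := fun h => q21 ⟨f2.1.symm, f2.2.symm, h.symm⟩
        have hc : cv wq e0 e1 e2 = 0 := by
          unfold cv; rw [if_neg n1, if_neg n2, if_neg n3]; ring
        linarith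
      · have := B1 f1
        have := B2 f2
        linarith
  · by_cases f1 : e1 = a1 ∧ e1 = b1
    · have n1 : ¬ e1 = e0 := fun h => q10 ⟨f1.1.symm, f1.2.symm, h.symm⟩
      have n2 : ¬ e2 = e1 := fun h => q12 ⟨f1.1.symm, f1.2.symm, h⟩
      have hc : cv wq e0 e1 e2 ≤ wq := by
        unfold cv; rw [if_neg n1, if_neg n2]; split_ifs <;> linarith
      by_cases f2 : e2 = a2 ∧ e2 = b2
      · have n3 : ¬ e2 = e0 := fun h => q20 ⟨f2.1.symm, f2.2.symm, h.symm⟩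
        have hc : cv wq e0 e1 e2 = 0 := by
          unfold cv; rw [if_neg n1, if_neg n2, if_neg n3]; ring
        linarith
      · have := B0 f0
        have := B2 f2
        linarith
    · by_cases f2 : e2 = a2 ∧ e2 = b2
      · have n1 : ¬ e2 = e0 := fun h => q20 ⟨f2.1.symm, f2.2.symm, h.symm⟩
        have n2 : ¬ e2 = e1 := fun h => q21 ⟨f2.1.symm, f2.2.symm, h.symm⟩
        have hc : cv wq e0 e1 e2 ≤ wq := by
          unfold cv; rw [if_neg n1, if_neg n2]; split_ifs <;> linarith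
        have := B0 f0
        have := B1 f1
        linarith
      · have b0' := B0 f0
        have b1' := B1 f1
        have b2' := B2 f2
        by_cases g0 : x0 = a0 ∧ x0 = b0
        · by_cases g1 : x1 = a1 ∧ x1 = b1
          · by_cases g2 : x2 = a2 ∧ x2 = b2
            · rw [if_pos ⟨⟨g0, g1⟩, g2⟩]
              linarith
            · have := C2 f2 g2
              linarith
          · have := C1 f1 g1
            linarith
        · have := C0 f0 g0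
          linarith

end

end Pool.Agent.H569R2.Tri
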