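import Pool.Agent.H569R2.Tri.Defs

/-!
# `lpDist` is the distance given by Mathlib's `L_p` norm on `ℝ ^ n`
-/

namespace Pool.Agent.H569R2.Tri

open scoped ENNReal

theorem sum_zipWith (f : ℚ → ℚ → ℝ) : ∀ (n : ℕ) (x y : List ℚ), x.length = n → y.length = n →
    (List.zipWith f x y).sum = ∑ i : Fin n, f (x.getD i 0) (y.getD i 0)
  | 0, x, y, hx, hy => by
    rw [List.length_eq_zero_iff.1 hx]; simp
  | n + 1, [], y, hx, _ => by simp at hx
  | n + 1, x :: xs, [], _, hy => by simp at hy
  | n + 1, x :: xs, y :: ys, hx, hy => by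
    rw [List.zipWith_cons_cons, List.sum_cons, Fin.sum_univ_succ,
      sum_zipWith f n xs ys (by simpa using hx) (by simpa using hy)]
    simp

theorem mem_zipWith (f : ℚ → ℚ → ℝ) : ∀ (n : ℕ) (x y : List ℚ), x.length = n → y.length = n →
    ∀ a, a ∈ List.zipWith f x y ↔ ∃ i : Fin n, a = f (x.getD i 0) (y.getD i 0)
  | 0, x, y, hx, hy => by
    rw [List.length_eq_zero_iff.1 hx]; simp
  | n + 1, [], y, hx, _ => by simp at hx
  | n + 1, x :: xs, [], _, hy => by simp at hy
  | n + 1, x :: xs, y :: ys, hx, hy => by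
    intro a
    rw [List.zipWith_cons_cons, List.mem_cons,
      mem_zipWith f n xs ys (by simpa using hx) (by simpa using hy) a, Fin.exists_fin_succ]
    simp

theorem le_foldr_max : ∀ (l : List ℝ) (a : ℝ), a ∈ l → a ≤ l.foldr max 0
  | [], a, h => by simp at h
  | b :: l, a, h => by
    rw [List.foldr_cons]
    rcases List.mem_cons.1 h with h | h
    · rw [h]; exact le_max_left _ _
    · exact (le_foldr_max l a h).trans (le_max_right _ _)

theorem foldr_max_nonneg (l : List ℝ) : 0 ≤ l.foldr max 0 := by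
  induction l with
  | nil => exact le_rfl
  | cons b l ih => rw [List.foldr_cons]; exact ih.trans (le_max_right _ _)

theorem foldr_max_le : ∀ (l : List ℝ) (c : ℝ), 0 ≤ c → (∀ a ∈ l, a ≤ c) → l.foldr max 0 ≤ c
  | [], c, hc, _ => hc
  | b :: l, c, hc, h => by
    rw [List.foldr_cons]
    exact max_le (h b (by simp)) (foldr_max_le l c hc (fun a ha => h a (List.mem_cons_of_mem _ ha)))

/-- `lpDist` is the distance of Mathlib's `L_p` norm. -/
theorem lpDist_eq_norm (p : ℝ≥0∞) (hp : 1 ≤ p) (n : ℕ) (x y : List ℚ) (hx : x.length = n)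
    (hy : y.length = n) : lpDist p x y =
      ‖(WithLp.toLp p (fun i : Fin n => ((x.getD i 0 : ℚ) : ℝ) - ((y.getD i 0 : ℚ) : ℝ)) :
        PiLp p (fun _ : Fin n => ℝ))‖ := by
  unfold lpDist
  split_ifs with h
  · subst h
    rw [PiLp.norm_eq_ciSup]
    apply le_antisymm
    · apply foldr_max_le
      · exact Real.iSup_nonneg fun i => norm_nonneg _
      · intro a ha
        rw [mem_zipWith _ n x y hx hy] at ha
        obtain ⟨i, rfl⟩ := ha
        exact le_ciSup (f := fun i : Fin n =>
          ‖(WithLp.toLp ∞ (fun i : Fin n => ((x.getD i 0 : ℚ) : ℝ) - ((y.getD i 0 : ℚ) : ℝ)) :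
        PiLp ∞ (fun _ : Fin n => ℝ)) i‖) (Set.finite_range _).bddAbove i
    · apply Real.iSup_le _ (foldr_max_nonneg _)
      intro i
      apply le_foldr_max
      rw [mem_zipWith _ n x y hx hy]
      exact ⟨i, rfl⟩
  · have h1 : 0 < p.toReal := by
      have := ENNReal.toReal_mono h hp
      simp at this
      linarith
    rw [PiLp.norm_eq_sum h1, sum_zipWith _ n x y hx hy]
    rfl

end Pool.Agent.H569R2.Tri
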