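import Pool.Agent.H569R2.Tri.Emb
import Pool.Agent.H569R2.Tri.Part

/-!
# The upper bound on the perimeter of a partition
-/

namespace Pool.Agent.H569R2.Tri

theorem fb_eval (T : List (ℕ × ℕ × ℕ)) (b i k : ℕ) (hk : k < 12) : fb T b (12 * i + k) =
    if tgt b k = k then 12 * i + k else if tgt b k < 3 then 12 * rep T (tgt b k) i + tgt b k
      else 12 * i + tgt b k := by
  have h1 : (12 * i + k) % 12 = k := by omega
  have h2 : (12 * i + k) / 12 = i := by omega
  unfold fb
  rw [h1, h2]

/-- indicator that `u` is with its partner of block `b` -/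
noncomputable def ind (T S : List (ℕ × ℕ × ℕ)) (b u : ℕ) : ℝ :=
  if tgt b (u % 12) ≠ u % 12 ∧ same S u (fb T b u) = true then 1 else 0

/-- the weight charged to `u` -/
noncomputable def hh (T S : List (ℕ × ℕ × ℕ)) (w : ℕ → ℝ) (u : ℕ) : ℝ :=
  ∑ b ∈ Finset.range 9, w b * ind T S b u

theorem same_of_mem {S : List (ℕ × ℕ × ℕ)} {t : ℕ × ℕ × ℕ} (ht : t ∈ S) {u v : ℕ}
    (hu : u ∈ tl t) (hv : v ∈ tl t) : same S u v = true := by
  unfold same
  simp only [List.any_eq_true, Bool.and_eq_true, decide_eq_true_eq]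
  exact ⟨t, ht, hu, hv⟩

theorem two_le_ind (T S : List (ℕ × ℕ × ℕ)) {t : ℕ × ℕ × ℕ} (ht : t ∈ S) (b : ℕ) {u v v' : ℕ}
    (hu : u ∈ tl t) (hv : v ∈ tl t) (hv' : v' ∈ tl t) (h1 : u ≠ v) (h2 : u ≠ v') (h3 : v ≠ v') :
    (if fb T b u = v then (1:ℝ) else 0) + (if fb T b u = v' then 1 else 0) ≤ ind T S b u := by
  unfold ind
  by_cases k1 : fb T b u = v
  · have k2 : ¬ fb T b u = v' := fun h => h3 (k1.symm.trans h)
    have k3 : tgt b (u % 12) ≠ u % 12 := by
      intro h
      exact h1 (((fb_eq_iff T b u).2 h).symm.trans k1)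
    have k4 : same S u (fb T b u) = true := by rw [k1]; exact same_of_mem ht hu hv
    rw [if_pos k1, if_neg k2, if_pos ⟨k3, k4⟩]
    norm_num
  · rw [if_neg k1]
    by_cases k2 : fb T b u = v'
    · have k3 : tgt b (u % 12) ≠ u % 12 := by
        intro h
        exact h2 (((fb_eq_iff T b u).2 h).symm.trans k2)
      have k4 : same S u (fb T b u) = true := by rw [k2]; exact same_of_mem ht hu hv'
      rw [if_pos k2, if_pos ⟨k3, k4⟩]
      norm_num
    · rw [if_neg k2]
      split_ifs <;> norm_num

theorem per_le {T : List (ℕ × ℕ × ℕ)} {D : ℕ → ℕ → ℝ} {d0 : ℝ} {w : ℕ → ℝ} (hG : Good T D d0 w)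
    (hw : ∀ b, 0 ≤ w b) {S : List (ℕ × ℕ × ℕ)} (hS : IsPart (nv T) S) {t : ℕ × ℕ × ℕ}
    (ht : t ∈ S) : perD D t ≤ 3 * d0 + ((tl t).map (hh T S w)).sum := by
  have hn := hS.tl_nodup ht
  obtain ⟨a, b, c⟩ := t
  have ha : a ∈ tl (a, b, c) := by simp [tl]
  have hb : b ∈ tl (a, b, c) := by simp [tl]
  have hc : c ∈ tl (a, b, c) := by simp [tl]
  simp only [tl, List.nodup_cons, List.mem_cons, List.not_mem_nil, or_false, not_or,
    not_false_eq_true, List.nodup_nil, and_true] at hn
  obtain ⟨⟨hab, hac⟩, hbc⟩ := hn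
  have ha' := hS.mem.2 ⟨_, ht, ha⟩
  have hb' := hS.mem.2 ⟨_, ht, hb⟩
  have hc' := hS.mem.2 ⟨_, ht, hc⟩
  have h1 := hG.upper a b ha' hb' hab
  have h2 := hG.upper b c hb' hc' hbc
  have h3 := hG.upper a c ha' hc' hac
  have key : ∑ β ∈ Finset.range 9, w β * ((if fb T β b = a then 1 else 0) +
      (if fb T β a = b then 1 else 0)) + ∑ β ∈ Finset.range 9, w β * ((if fb T β c = b then 1 else 0) +
      (if fb T β b = c then 1 else 0)) + ∑ β ∈ Finset.range 9, w β * ((if fb T β c = a then 1 else 0) +
      (if fb T β a = c then 1 else 0)) ≤ hh T S w a + (hh T S w b + hh T S w c) := by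
    unfold hh
    rw [← Finset.sum_add_distrib, ← Finset.sum_add_distrib, ← Finset.sum_add_distrib,
      ← Finset.sum_add_distrib]
    apply Finset.sum_le_sum
    intro β _
    have g1 := two_le_ind T S ht β ha hb hc hab hac hbc
    have g2 := two_le_ind T S ht β hb ha hc (Ne.symm hab) hbc hac
    have g3 := two_le_ind T S ht β hc ha hb (Ne.symm hac) (Ne.symm hbc) hab
    have g := mul_le_mul_of_nonneg_left (add_le_add g1 (add_le_add g2 g3)) (hw β)
    refine le_trans (le_of_eq ?_) (g.trans (le_of_eq ?_)) <;> ring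
  unfold perD
  simp only [tl, List.map_cons, List.map_nil, List.sum_cons, List.sum_nil, add_zero]
  linarith

theorem list_sum_range (f : ℕ → ℝ) (n : ℕ) :
    ((List.range n).map f).sum = ∑ u ∈ Finset.range n, f u := by
  induction n with
  | zero => simp
  | succ n ih => rw [List.range_succ, List.map_append, List.sum_append, ih,
      Finset.sum_range_succ]; simp

theorem tot_le {T : List (ℕ × ℕ × ℕ)} {D : ℕ → ℕ → ℝ} {d0 : ℝ} {w : ℕ → ℝ} (hG : Good T D d0 w)
    (hw : ∀ b, 0 ≤ w b) {S : List (ℕ × ℕ × ℕ)} (hS : IsPart (nv T) S) :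
    totD D S ≤ (nv T : ℝ) * d0 + ∑ u ∈ Finset.range (nv T), hh T S w u := by
  have h1 : ∀ R : List (ℕ × ℕ × ℕ), (∀ t ∈ R, t ∈ S) →
      totD D R ≤ ((R.flatMap tl).length : ℝ) * d0 + ((R.flatMap tl).map (hh T S w)).sum := by
    intro R
    induction R with
    | nil => intro _; simp [totD]
    | cons t R ih =>
      intro h
      have e1 := ih (fun t ht => h t (List.mem_cons_of_mem _ ht))
      have e2 := per_le hG hw hS (h t (by simp))
      have e3 : totD D (t :: R) = perD D t + totD D R := by simp [totD]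
      rw [e3, List.flatMap_cons, List.map_append, List.sum_append, List.length_append]
      have e4 : ((tl t).length : ℝ) = 3 := by simp [tl]
      push_cast
      rw [e4]
      linarith
  have h2 := h1 S (fun t ht => ht)
  have h3 : (S.flatMap tl).length = nv T := by
    have := List.Perm.length_eq hS
    simpa using this
  have h4 : ((S.flatMap tl).map (hh T S w)).sum = ∑ u ∈ Finset.range (nv T), hh T S w u := by
    have : ((S.flatMap tl).map (hh T S w)).Perm ((List.range (nv T)).map (hh T S w)) :=
      List.Perm.map _ hS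
    rw [this.sum_eq, list_sum_range]
  rw [h3, h4] at h2
  exact h2

theorem sum12 (f : ℕ → ℝ) (m : ℕ) : ∑ u ∈ Finset.range (12 * m), f u =
    ∑ i ∈ Finset.range m, ∑ k ∈ Finset.range 12, f (12 * i + k) := by
  induction m with
  | zero => simp
  | succ m ih =>
    rw [Nat.mul_succ, Finset.sum_range_add, ih]
    exact (Finset.sum_range_succ (fun i => ∑ k ∈ Finset.range 12, f (12 * i + k)) m).symm

theorem hh_small (T S : List (ℕ × ℕ × ℕ)) (w : ℕ → ℝ) (u : ℕ) (h : u % 12 < 3) :
    hh T S w u = 0 := by
  unfold hh ind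
  apply Finset.sum_eq_zero
  intro b _
  rw [if_neg, mul_zero]
  rintro ⟨h1, _⟩
  exact h1 (tgt_small b _ h)

theorem hh_eval (T S : List (ℕ × ℕ × ℕ)) (w : ℕ → ℝ) (i k : ℕ) (hk : k < 12) :
    hh T S w (12 * i + k) = ∑ b ∈ Finset.range 9, w b *
      (if tgt b k ≠ k ∧ same S (12 * i + k) (if tgt b k < 3 then
        12 * rep T (tgt b k) i + tgt b k else 12 * i + tgt b k) = true then 1 else 0) := by
  unfold hh ind
  apply Finset.sum_congr rfl
  intro b _
  have h1 : (12 * i + k) % 12 = k := by omega
  rw [h1, fb_eval T b i k hk]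
  by_cases h : tgt b k = k
  · simp [h]
  · rw [if_neg h]

theorem gadget_sum (T S : List (ℕ × ℕ × ℕ)) (ws wt wr wq : ℝ) (i : ℕ) :
    ∑ k ∈ Finset.range 12, hh T S (wf ws wt wr wq) (12 * i + k) =
      ((if same S (12 * i + 3) (ev T 0 i) = true then ws else 0) +
        (if same S (12 * i + 4) (ev T 0 i) = true then ws else 0) +
        (if same S (12 * i + 4) (12 * i + 3) = true then wt else 0) +
        (if same S (12 * i + 5) (12 * i + 3) = true then wr else 0) +
        (if same S (12 * i + 5) (12 * i + 4) = true then wr else 0)) +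
      ((if same S (12 * i + 6) (ev T 1 i) = true then ws else 0) +
        (if same S (12 * i + 7) (ev T 1 i) = true then ws else 0) +
        (if same S (12 * i + 7) (12 * i + 6) = true then wt else 0) +
        (if same S (12 * i + 8) (12 * i + 6) = true then wr else 0) +
        (if same S (12 * i + 8) (12 * i + 7) = true then wr else 0)) +
      ((if same S (12 * i + 9) (ev T 2 i) = true then ws else 0) +
        (if same S (12 * i + 10) (ev T 2 i) = true then ws else 0) +
        (if same S (12 * i + 10) (12 * i + 9) = true then wt else 0) +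
        (if same S (12 * i + 11) (12 * i + 9) = true then wr else 0) +
        (if same S (12 * i + 11) (12 * i + 10) = true then wr else 0)) +
      ((if same S (12 * i + 8) (12 * i + 5) = true then wq else 0) +
        (if same S (12 * i + 11) (12 * i + 8) = true then wq else 0) +
        (if same S (12 * i + 11) (12 * i + 5) = true then wq else 0)) := by
  have e : ∀ k < 12, hh T S (wf ws wt wr wq) (12 * i + k) = _ :=
    fun k hk => hh_eval T S (wf ws wt wr wq) i k hk
  have e0 : hh T S (wf ws wt wr wq) (12 * i + 0) = 0 := hh_small T S _ _ (by omega)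
  have e1 : hh T S (wf ws wt wr wq) (12 * i + 1) = 0 := hh_small T S _ _ (by omega)
  have e2 : hh T S (wf ws wt wr wq) (12 * i + 2) = 0 := hh_small T S _ _ (by omega)
  have e3 := e 3 (by norm_num)
  have e4 := e 4 (by norm_num)
  have e5 := e 5 (by norm_num)
  have e6 := e 6 (by norm_num)
  have e7 := e 7 (by norm_num)
  have e8 := e 8 (by norm_num)
  have e9 := e 9 (by norm_num)
  have e10 := e 10 (by norm_num)
  have e11 := e 11 (by norm_num)
  simp only [Finset.sum_range_succ, Finset.sum_range_zero, tgt, wf] at e3 e4 e5 e6 e7 e8 e9 e10 e11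
  norm_num at e3 e4 e5 e6 e7 e8 e9 e10 e11
  simp only [Finset.sum_range_succ, Finset.sum_range_zero, e0, e1, e2, e3, e4, e5, e6, e7, e8, e9,
    e10, e11, ev]
  norm_num
  ring_nf

theorem nv_cast (T : List (ℕ × ℕ × ℕ)) : (nv T : ℝ) = 12 * T.length + 3 := by
  unfold nv; push_cast; ring

theorem stmtU : StmtU := by
  intro T D d0 ws wt wr wq hG hW hrep S hS'
  have hS : IsPart (nv T) S := hS'
  have h1 := tot_le hG (wf_nonneg hW) hS
  have h2 : ∑ u ∈ Finset.range (nv T), hh T S (wf ws wt wr wq) u =
      ∑ i ∈ Finset.range T.length, ∑ k ∈ Finset.range 12,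
        hh T S (wf ws wt wr wq) (12 * i + k) := by
    unfold nv
    rw [Finset.sum_range_add, sum12]
    have h3 : ∑ x ∈ Finset.range 3, hh T S (wf ws wt wr wq) (12 * T.length + x) = 0 := by
      apply Finset.sum_eq_zero
      intro x hx
      have := Finset.mem_range.1 hx
      exact hh_small T S _ _ (by omega)
    rw [h3, add_zero]
  obtain ⟨cl, hcl⟩ := hS.exists_cl
  have hcl2 : ∀ v < nv T, v ∈ tl (cl v) := fun v hv => (hcl v hv).2
  have h4 : ∀ i ∈ Finset.range T.length, ∑ k ∈ Finset.range 12,
      hh T S (wf ws wt wr wq) (12 * i + k) ≤ 3 * wt + 6 * wr +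
        (if selB T S i = true then 3 * wq - 6 * (wr - ws) else 0) := by
    intro i hi
    have hi' := Finset.mem_range.1 hi
    have n : ∀ k < 12, 12 * i + k < nv T := by intro k hk; unfold nv; omega
    have hr0 := hrep 0 i hi'
    have hr1 := hrep 1 i hi'
    have hr2 := hrep 2 i hi'
    have m0 : ev T 0 i < nv T := by unfold ev nv; omega
    have m1 : ev T 1 i < nv T := by unfold ev nv; omega
    have m2 : ev T 2 i < nv T := by unfold ev nv; omega
    rw [gadget_sum]
    have s : ∀ {u v : ℕ}, u < nv T → v < nv T → (same S u v = true ↔ cl u = cl v) :=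
      fun hu hv => same_iff hS hcl hu hv
    have hsel : selB T S i = true ↔ ((cl (ev T 0 i) = cl (12 * i + 3) ∧
        cl (ev T 0 i) = cl (12 * i + 4)) ∧ (cl (ev T 1 i) = cl (12 * i + 6) ∧
        cl (ev T 1 i) = cl (12 * i + 7))) ∧ (cl (ev T 2 i) = cl (12 * i + 9) ∧
        cl (ev T 2 i) = cl (12 * i + 10)) := by
      unfold selB
      simp only [Bool.and_eq_true]
      rw [s m0 (n 3 (by norm_num)), s m0 (n 4 (by norm_num)), s m1 (n 6 (by norm_num)),
        s m1 (n 7 (by norm_num)), s m2 (n 9 (by norm_num)), s m2 (n 10 (by norm_num))]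
    simp only [hsel, s (n 3 (by norm_num)) m0, s (n 4 (by norm_num)) m0,
      s (n 4 (by norm_num)) (n 3 (by norm_num)), s (n 5 (by norm_num)) (n 3 (by norm_num)),
      s (n 5 (by norm_num)) (n 4 (by norm_num)), s (n 6 (by norm_num)) m1,
      s (n 7 (by norm_num)) m1, s (n 7 (by norm_num)) (n 6 (by norm_num)),
      s (n 8 (by norm_num)) (n 6 (by norm_num)), s (n 8 (by norm_num)) (n 7 (by norm_num)),
      s (n 9 (by norm_num)) m2, s (n 10 (by norm_num)) m2,
      s (n 10 (by norm_num)) (n 9 (by norm_num)), s (n 11 (by norm_num)) (n 9 (by norm_num)),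
      s (n 11 (by norm_num)) (n 10 (by norm_num)), s (n 8 (by norm_num)) (n 5 (by norm_num)),
      s (n 11 (by norm_num)) (n 8 (by norm_num)), s (n 11 (by norm_num)) (n 5 (by norm_num))]
    have f : ∀ {a b c d : ℕ}, a < nv T → b < nv T → c < nv T → d < nv T → a ≠ b → a ≠ c →
        a ≠ d → b ≠ c → b ≠ d → c ≠ d → ¬ (cl b = cl a ∧ cl c = cl a ∧ cl d = cl a) :=
      fun ha hb hc hd => four hcl2 ha hb hc hd
    have g := gadget_le hW (cl (ev T 0 i)) (cl (ev T 1 i)) (cl (ev T 2 i)) (cl (12 * i + 3))
      (cl (12 * i + 6)) (cl (12 * i + 9)) (cl (12 * i + 4)) (cl (12 * i + 7)) (cl (12 * i + 10))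
      (cl (12 * i + 5)) (cl (12 * i + 8)) (cl (12 * i + 11))
      (f (n 3 (by norm_num)) (n 4 (by norm_num)) (n 5 (by norm_num)) m0 (by omega) (by omega)
        (by unfold ev; omega) (by omega) (by unfold ev; omega) (by unfold ev; omega))
      (f (n 6 (by norm_num)) (n 7 (by norm_num)) (n 8 (by norm_num)) m1 (by omega) (by omega)
        (by unfold ev; omega) (by omega) (by unfold ev; omega) (by unfold ev; omega))
      (f (n 9 (by norm_num)) (n 10 (by norm_num)) (n 11 (by norm_num)) m2 (by omega) (by omega)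
        (by unfold ev; omega) (by omega) (by unfold ev; omega) (by unfold ev; omega))
      (f (n 5 (by norm_num)) (n 3 (by norm_num)) (n 4 (by norm_num)) (n 8 (by norm_num))
        (by omega) (by omega) (by omega) (by omega) (by omega) (by omega))
      (f (n 5 (by norm_num)) (n 3 (by norm_num)) (n 4 (by norm_num)) (n 11 (by norm_num))
        (by omega) (by omega) (by omega) (by omega) (by omega) (by omega))
      (f (n 8 (by norm_num)) (n 6 (by norm_num)) (n 7 (by norm_num)) (n 5 (by norm_num))
        (by omega) (by omega) (by omega) (by omega) (by omega) (by omega))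
      (f (n 8 (by norm_num)) (n 6 (by norm_num)) (n 7 (by norm_num)) (n 11 (by norm_num))
        (by omega) (by omega) (by omega) (by omega) (by omega) (by omega))
      (f (n 11 (by norm_num)) (n 9 (by norm_num)) (n 10 (by norm_num)) (n 5 (by norm_num))
        (by omega) (by omega) (by omega) (by omega) (by omega) (by omega))
      (f (n 11 (by norm_num)) (n 9 (by norm_num)) (n 10 (by norm_num)) (n 8 (by norm_num))
        (by omega) (by omega) (by omega) (by omega) (by omega) (by omega))
    exact g
  have h5 := Finset.sum_le_sum h4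
  have h6 : (∑ i ∈ Finset.range T.length, (if selB T S i = true then 3 * wq - 6 * (wr - ws)
      else 0)) = (3 * wq - 6 * (wr - ws)) * (sel T S).length := by
    have : ∀ m : ℕ, (∑ i ∈ Finset.range m, (if selB T S i = true then 3 * wq - 6 * (wr - ws)
      else 0)) = (3 * wq - 6 * (wr - ws)) *
        ((List.range m).filter (fun i => selB T S i)).length := by
      intro m
      induction m with
      | zero => simp
      | succ m ih =>
        rw [Finset.sum_range_succ, ih, List.range_succ, List.filter_append, List.length_append]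
        cases h : selB T S m
        · simp [h]
        · simp [h]; ring
    exact this T.length
  rw [Finset.sum_add_distrib, h6] at h5
  simp only [Finset.sum_const, Finset.card_range, nsmul_eq_mul] at h5
  rw [h2] at h1
  linarith

end Pool.Agent.H569R2.Tri
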